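import Pool.Agent.W_MP_c466d4_an.Lower

namespace Pool.Agent.W_MP_c466d4_an

open MeasureTheory AddCircle Set Filter
open scoped ENNReal ComplexConjugate Topology

lemma cpFun_le_of_forall_Ioo {p N : ℝ} (hp : 1 < p)
    (h : ∀ α : ℝ, 0 < α → α < 1 → cpFun p α ≤ N) : ∀ α ∈ Icc (0 : ℝ) 1, cpFun p α ≤ N := by
  have hcl : IsClosed {α : ℝ | cpFun p α ≤ N} :=
    isClosed_le (continuous_cpFun hp) continuous_const
  have hsub : Ioo (0 : ℝ) 1 ⊆ {α : ℝ | cpFun p α ≤ N} := fun α hα => h α hα.1 hα.2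
  have := hcl.closure_subset_iff.2 hsub
  rw [closure_Ioo (by norm_num)] at this
  exact this

lemma fejerKernel_eq_tsum (n : ℕ) :
    fejerKernel n = fun θ => ∑' k : ℤ, ((fw n k : ℝ) : ℂ) * fourier k θ := by
  ext θ
  rw [tsum_eq_sum (s := Finset.Icc (-(n : ℤ)) (n : ℤ))]
  · unfold fejerKernel
    refine Finset.sum_congr rfl fun k hk => ?_
    congr 2
    simp only [Finset.mem_Icc] at hk
    unfold fw
    have hle : k.natAbs ≤ n + 1 := by omega
    rw [Nat.cast_sub hle]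
    have habs : ((k.natAbs : ℕ) : ℝ) = |(k : ℝ)| := by
      rw [Nat.cast_natAbs, Int.cast_abs]
    rw [habs]
    push_cast
    have : (n : ℝ) + 1 ≠ 0 := by positivity
    field_simp
  · intro k hk
    simp only [Finset.mem_Icc] at hk
    unfold fw
    have : n + 1 - k.natAbs = 0 := by omega
    rw [this]; simp

lemma summable_fw (n : ℕ) : Summable fun k : ℤ => ‖((fw n k : ℝ) : ℂ)‖ := by
  refine summable_of_ne_finset_zero (s := Finset.Icc (-(n : ℤ)) (n : ℤ)) fun k hk => ?_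
  simp only [Finset.mem_Icc] at hk
  unfold fw
  have : n + 1 - k.natAbs = 0 := by omega
  rw [this]; simp

/-- General principle: the norm equals `C` as soon as the upper bound holds. -/
lemma normIdSub_eq {p C : ℝ} (hp : 1 < p) (hC : IsGreatest (cpFun p '' Icc (0 : ℝ) 1) C)
    {c : ℤ → ℂ} (hc : Summable fun k => ‖c k‖) (hc0 : c 0 = 1)
    (hub : ∀ F : Circ → ℂ, MemLp F (ENNReal.ofReal p) mC →
      eLpNorm (fun x => F x - conv (fun θ => ∑' k, c k * fourier k θ) F x) (ENNReal.ofReal p) mC ≤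
        ENNReal.ofReal C * eLpNorm F (ENNReal.ofReal p) mC) :
    normIdSub (ENNReal.ofReal p) (fun θ => ∑' k, c k * fourier k θ) = ENNReal.ofReal C := by
  have hp1 : (1 : ℝ≥0∞) ≤ ENNReal.ofReal p := by
    rw [← ENNReal.ofReal_one]; exact ENNReal.ofReal_le_ofReal hp.le
  apply le_antisymm
  · exact sInf_le hub
  · refine le_sInf fun N hN => ?_
    rcases eq_or_ne N ∞ with h | h
    · rw [h]; exact le_top
    · have hN' : ∀ f : Circ → ℂ, MemLp f (ENNReal.ofReal p) mC →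
          eLpNorm (fun x => f x - ∫ t, f t ∂mC) (ENNReal.ofReal p) mC ≤
            ENNReal.ofReal N.toReal * eLpNorm f (ENNReal.ofReal p) mC := by
        intro f hf
        rw [ENNReal.ofReal_toReal h]
        exact eLpNorm_sub_mean_le hp1 hc hc0 hN hf
      have h1 := cpFun_le_of_forall_Ioo hp fun α h0 h1 =>
        cpFun_le_of_bound hp ENNReal.toReal_nonneg hN' h0 h1
      obtain ⟨α, hα, hαC⟩ := hC.1
      rw [← hαC]
      exact ENNReal.ofReal_le_of_le_toReal (h1 α hα)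

theorem main (p : ℝ) (hp : 1 < p) :
    ∃ C : ℝ, IsGreatest (cpFun p '' Icc (0 : ℝ) 1) C ∧
      (∀ n : ℕ, normIdSub (ENNReal.ofReal p) (fejerKernel n) = ENNReal.ofReal C) ∧
      (∀ r : ℝ, 0 ≤ r → r < 1 →
        normIdSub (ENNReal.ofReal p) (poissonKernel r) = ENNReal.ofReal C) := by
  obtain ⟨C, hC⟩ := exists_isGreatest_cpFun hp
  have hCub : ∀ α ∈ Icc (0 : ℝ) 1, cpFun p α ≤ C := fun α hα => hC.2 ⟨α, hα, rfl⟩
  have hC1 : 1 ≤ C := by
    have := hCub 0 ⟨le_rfl, zero_le_one⟩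
    rwa [cpFun_zero hp] at this
  have hC0 : 0 ≤ C := zero_le_one.trans hC1
  refine ⟨C, hC, fun n => ?_, fun r h0 h1 => ?_⟩
  · have hub : ∀ F : Circ → ℂ, MemLp F (ENNReal.ofReal p) mC →
        eLpNorm (fun x => F x - conv (fejerKernel n) F x) (ENNReal.ofReal p) mC ≤
          ENNReal.ofReal C * eLpNorm F (ENNReal.ofReal p) mC :=
      fun F hF => eLpNorm_fejer hp hC0 hCub n hF
    rw [fejerKernel_eq_tsum] at hub ⊢
    refine normIdSub_eq hp hC (summable_fw n) ?_ hub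
    unfold fw
    simp only [Int.natAbs_zero, tsub_zero]
    push_cast
    rw [div_self (Nat.cast_add_one_ne_zero n)]
  · refine normIdSub_eq hp hC (c := fun k => ((r ^ k.natAbs : ℝ) : ℂ)) (summable_poisson h0 h1)
      (by simp) ?_
    exact fun F hF => eLpNorm_poisson hp hC0 hCub h0 h1 hF

end Pool.Agent.W_MP_c466d4_an
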