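import Pool.Agent.W_MP_c466d4_an.RealIneq

namespace Pool.Agent.W_MP_c466d4_an

open MeasureTheory AddCircle Set
open scoped ENNReal ComplexConjugate

/-- The mean of `|cos|^p`. -/
noncomputable def kap (p : ℝ) : ℝ≥0∞ := ∫⁻ θ : Circ, ‖(fourier 1 θ).re‖ₑ ^ p ∂mC

lemma kap_ne_zero {p : ℝ} (hp : 0 < p) : kap p ≠ 0 := by
  intro h
  unfold kap at h
  have hcont : Continuous fun θ : Circ => (fourier 1 θ).re :=
    Complex.continuous_re.comp (map_continuous (fourier 1))
  have hm : Measurable fun θ : Circ => ‖(fourier 1 θ).re‖ₑ ^ p := by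
    exact (hcont.measurable.enorm).pow_const p
  rw [lintegral_eq_zero_iff hm] at h
  have h1 : (fun θ : Circ => (fourier 1 θ).re) =ᵐ[mC] fun _ => (0 : ℝ) := by
    filter_upwards [h] with θ hθ
    simp only [Pi.zero_apply] at hθ
    rw [ENNReal.rpow_eq_zero_iff_of_pos hp] at hθ
    exact enorm_eq_zero.1 hθ
  have h2 := (Continuous.ae_eq_iff_eq (μ := mC) hcont continuous_const).1 h1
  have h3 : (fourier 1 (0 : Circ)).re = 0 := congrFun h2 0
  rw [fourier_eval_zero] at h3
  simp at h3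

lemma kap_ne_top {p : ℝ} (hp : 0 < p) : kap p ≠ ∞ := by
  unfold kap
  have h1 : ∫⁻ θ : Circ, ‖(fourier 1 θ).re‖ₑ ^ p ∂mC ≤ ∫⁻ _ : Circ, 1 ∂mC := by
    refine lintegral_mono fun θ => ?_
    have h2 : ‖(fourier 1 θ).re‖ₑ ≤ 1 := by
      rw [← ofReal_norm, ← ENNReal.ofReal_one]
      apply ENNReal.ofReal_le_ofReal
      have := Complex.abs_re_le_norm (fourier 1 θ)
      rw [norm_fourier_apply] at this
      exact this
    exact ENNReal.rpow_le_one h2 hp.le
  have h2 : ∫⁻ _ : Circ, (1 : ℝ≥0∞) ∂mC = 1 := by simp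
  rw [h2] at h1
  exact (lt_of_le_of_lt h1 ENNReal.one_lt_top).ne

lemma lintegral_rot {p : ℝ} (hp : 0 < p) (z : ℂ) :
    ∫⁻ θ : Circ, ‖(fourier 1 θ * z).re‖ₑ ^ p ∂mC = kap p * ‖z‖ₑ ^ p := by
  have h1 : ∀ θ : Circ, (fourier 1 θ * z).re =
      ‖z‖ * (fourier 1 (θ + ((Complex.arg z : ℝ) : Circ))).re := by
    intro θ
    have e1 : fourier 1 (θ + ((Complex.arg z : ℝ) : Circ)) =
        fourier 1 θ * Complex.exp (Complex.arg z * Complex.I) := by
      rw [fourier_apply, fourier_apply, smul_add, AddCircle.toCircle_add, Circle.coe_mul]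
      congr 1
      rw [← fourier_apply, fourier_coe_apply]
      congr 1
      have : (Real.pi : ℂ) ≠ 0 := by exact_mod_cast Real.pi_ne_zero
      push_cast
      field_simp
    rw [e1]
    conv_lhs => rw [← Complex.norm_mul_exp_arg_mul_I z]
    rw [← Complex.re_ofReal_mul]
    congr 1; ring
  have h2 : ∀ θ : Circ, ‖(fourier 1 θ * z).re‖ₑ ^ p =
      ‖z‖ₑ ^ p * ‖(fourier 1 (θ + ((Complex.arg z : ℝ) : Circ))).re‖ₑ ^ p := by
    intro θ
    rw [h1, enorm_mul, ENNReal.mul_rpow_of_nonneg _ _ hp.le]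
    congr 2
    rw [← ofReal_norm, ← ofReal_norm, norm_norm]
  simp_rw [h2]
  have hcont : Continuous fun θ : Circ => (fourier 1 θ).re :=
    Complex.continuous_re.comp (map_continuous (fourier 1))
  have hm : Measurable fun θ : Circ => ‖(fourier 1 θ).re‖ₑ ^ p :=
    (hcont.measurable.enorm).pow_const p
  have hm2 : Measurable fun θ : Circ =>
      ‖(fourier 1 (θ + ((Complex.arg z : ℝ) : Circ))).re‖ₑ ^ p :=
    hm.comp (measurable_add_const _)
  rw [lintegral_const_mul _ hm2,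
    lintegral_add_right_eq_self (μ := mC) (fun θ : Circ => ‖(fourier 1 θ).re‖ₑ ^ p), mul_comm]
  rfl

lemma conv_const_mul (K F : Circ → ℂ) (c : ℂ) (x : Circ) :
    conv K (fun y => c * F y) x = c * conv K F x := by
  unfold conv
  rw [← integral_const_mul]
  congr 1; ext t; ring

lemma conv_re {K : Circ → ℂ} (hK : Continuous K) (hKr : ∀ x, conj (K x) = K x)
    {G : Circ → ℂ} (hG : Integrable G mC) (x : Circ) :
    conv K (fun y => (((G y).re : ℝ) : ℂ)) x = (((conv K G x).re : ℝ) : ℂ) := by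
  obtain ⟨B, hB⟩ : ∃ B, ∀ t, ‖K (x - t)‖ ≤ B := by
    obtain ⟨B, hB⟩ := (isCompact_range hK).isBounded.exists_norm_le
    exact ⟨B, fun t => hB _ ⟨_, rfl⟩⟩
  have hint : Integrable (fun t => K (x - t) * G t) mC :=
    hG.bdd_mul (c := B) (hK.comp (continuous_const.sub continuous_id)).aestronglyMeasurable
      (Filter.Eventually.of_forall hB)
  unfold conv
  have h1 : ∀ t, K (x - t) * (((G t).re : ℝ) : ℂ) = (((K (x - t) * G t).re : ℝ) : ℂ) := by
    intro t
    have hk : ((K (x - t)).re : ℂ) = K (x - t) := Complex.conj_eq_iff_re.1 (hKr _)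
    rw [← hk, ← Complex.ofReal_mul, Complex.re_ofReal_mul]
  simp_rw [h1]
  rw [integral_complex_ofReal]
  congr 1
  exact integral_re hint

lemma complexify {p : ℝ} (hp : 1 < p) {D : ℝ≥0∞} {K : Circ → ℂ} (hK : Continuous K)
    (hKr : ∀ x, conj (K x) = K x)
    (h : ∀ f : Circ → ℝ, MemLp f (ENNReal.ofReal p) mC →
      ∫⁻ x, ‖(f x : ℂ) - conv K (fun y => (f y : ℂ)) x‖ₑ ^ p ∂mC ≤ D * ∫⁻ x, ‖f x‖ₑ ^ p ∂mC)
    {F : Circ → ℂ} (hF : MemLp F (ENNReal.ofReal p) mC)
    (hm : AEStronglyMeasurable (conv K F) mC) :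
    ∫⁻ x, ‖F x - conv K F x‖ₑ ^ p ∂mC ≤ D * ∫⁻ x, ‖F x‖ₑ ^ p ∂mC := by
  have hp0 : 0 < p := by linarith
  have hFi : Integrable F mC := hF.integrable (by
    rw [← ENNReal.ofReal_one]; exact ENNReal.ofReal_le_ofReal hp.le)
  have hf1 : Measurable fun θ : Circ => fourier 1 θ := (map_continuous (fourier 1)).measurable
  -- swapping lemma
  have swap : ∀ {H : Circ → ℂ}, AEStronglyMeasurable H mC →
      kap p * ∫⁻ x, ‖H x‖ₑ ^ p ∂mC =
        ∫⁻ θ : Circ, ∫⁻ x, ‖(fourier 1 θ * H x).re‖ₑ ^ p ∂mC ∂mC := by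
    intro H hH
    have hH' : AEMeasurable (fun z : Circ × Circ => ‖(fourier 1 z.2 * H z.1).re‖ₑ ^ p)
        (mC.prod mC) := by
      have e1 : AEMeasurable (fun z : Circ × Circ => H z.1) (mC.prod mC) :=
        (hH.aemeasurable).comp_quasiMeasurePreserving Measure.quasiMeasurePreserving_fst
      have e2 : AEMeasurable (fun z : Circ × Circ => fourier 1 z.2) (mC.prod mC) :=
        (hf1.comp measurable_snd).aemeasurable
      exact ((Complex.measurable_re.comp_aemeasurable (e2.mul e1)).enorm).pow_const p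
    rw [← lintegral_const_mul'' _ (hH.enorm.pow_const p)]
    have e3 : ∀ x, kap p * ‖H x‖ₑ ^ p =
        ∫⁻ θ : Circ, ‖(fourier 1 θ * H x).re‖ₑ ^ p ∂mC := fun x => (lintegral_rot hp0 _).symm
    simp_rw [e3]
    exact lintegral_lintegral_swap hH'
  have hH : AEStronglyMeasurable (fun x => F x - conv K F x) mC := hF.1.sub hm
  have main : kap p * ∫⁻ x, ‖F x - conv K F x‖ₑ ^ p ∂mC ≤
      kap p * (D * ∫⁻ x, ‖F x‖ₑ ^ p ∂mC) := by
    rw [swap hH, mul_left_comm, swap hF.1]
    have hmeas : ∀ {H : Circ → ℂ}, AEStronglyMeasurable H mC →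
      AEMeasurable (fun θ : Circ => ∫⁻ x, ‖(fourier 1 θ * H x).re‖ₑ ^ p ∂mC) mC := by
      intro H hH
      have hH' : AEMeasurable (fun z : Circ × Circ => ‖(fourier 1 z.1 * H z.2).re‖ₑ ^ p)
          (mC.prod mC) := by
        have e1 : AEMeasurable (fun z : Circ × Circ => H z.2) (mC.prod mC) :=
          (hH.aemeasurable).comp_quasiMeasurePreserving Measure.quasiMeasurePreserving_snd
        have e2 : AEMeasurable (fun z : Circ × Circ => fourier 1 z.1) (mC.prod mC) :=
          (hf1.comp measurable_fst).aemeasurable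
        exact ((Complex.measurable_re.comp_aemeasurable (e2.mul e1)).enorm).pow_const p
      exact hH'.lintegral_prod_right'
    rw [← lintegral_const_mul'' _ (hmeas hF.1)]
    refine lintegral_mono fun θ => ?_
    -- fixed angle
    set G : Circ → ℂ := fun y => fourier 1 θ * F y with hG
    have hGm : MemLp G (ENNReal.ofReal p) mC := hF.const_mul _
    have hGi : Integrable G mC := hFi.const_mul _
    have hf : MemLp (fun y => (G y).re) (ENNReal.ofReal p) mC := hGm.re
    have key := h (fun y => (G y).re) hf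
    have e1 : ∀ x, ‖(((G x).re : ℝ) : ℂ) - conv K (fun y => (((G y).re : ℝ) : ℂ)) x‖ₑ =
        ‖(fourier 1 θ * (F x - conv K F x)).re‖ₑ := by
      intro x
      rw [conv_re hK hKr hGi, hG, conv_const_mul, ← Complex.ofReal_sub, ← Complex.sub_re,
        ← mul_sub, ← ofReal_norm, ← ofReal_norm, Complex.norm_real]
    simp_rw [e1] at key
    exact key
  exact (ENNReal.mul_le_mul_iff_right (kap_ne_zero hp0) (kap_ne_top hp0)).1 main

lemma continuous_fejerKernel (n : ℕ) : Continuous (fejerKernel n) := by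
  unfold fejerKernel
  exact continuous_finsetSum _ fun k _ => continuous_const.mul (map_continuous (fourier k))

lemma conj_fejerKernel (n : ℕ) (x : Circ) : conj (fejerKernel n x) = fejerKernel n x := by
  unfold fejerKernel
  rw [map_sum]
  refine Finset.sum_nbij' (fun k => -k) (fun k => -k) ?_ ?_ ?_ ?_ ?_
  · intro k hk; simp only [Finset.mem_Icc] at hk ⊢; omega
  · intro k hk; simp only [Finset.mem_Icc] at hk ⊢; omega
  · intro k _; simp
  · intro k _; simp
  · intro k _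
    rw [map_mul, Complex.conj_ofReal, fourier_neg]
    push_cast
    rw [abs_neg]

lemma continuous_conv_fejer (n : ℕ) {F : Circ → ℂ} (hF : Integrable F mC) :
    Continuous (conv (fejerKernel n) F) := by
  have : conv (fejerKernel n) F = fun x => ∑ k ∈ Finset.Icc (-(n : ℤ)) (n : ℤ),
      ((1 - |(k : ℝ)| / ((n : ℝ) + 1) : ℝ) : ℂ) * fourierCoeff F k * fourier k x := by
    ext x; exact conv_fejer n hF x
  rw [this]
  exact continuous_finsetSum _ fun k _ => continuous_const.mul (map_continuous (fourier k))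

/-- The inequality for complex functions and Fejer means. -/
lemma complex_fejer {p C : ℝ} (hp : 1 < p) (hC0 : 0 ≤ C)
    (hC : ∀ α ∈ Icc (0 : ℝ) 1, cpFun p α ≤ C) (n : ℕ) {F : Circ → ℂ}
    (hF : MemLp F (ENNReal.ofReal p) mC) :
    ∫⁻ x, ‖F x - conv (fejerKernel n) F x‖ₑ ^ p ∂mC ≤
      ENNReal.ofReal C ^ p * ∫⁻ x, ‖F x‖ₑ ^ p ∂mC := by
  have hFi : Integrable F mC := hF.integrable (by
    rw [← ENNReal.ofReal_one]; exact ENNReal.ofReal_le_ofReal hp.le)
  exact complexify hp (continuous_fejerKernel n) (conj_fejerKernel n)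
    (fun f hf => real_fejer hp hC0 hC n hf) hF
    (continuous_conv_fejer n hFi).aestronglyMeasurable

/-- Fejer means: the upper bound in terms of norms. -/
lemma eLpNorm_fejer {p C : ℝ} (hp : 1 < p) (hC0 : 0 ≤ C)
    (hC : ∀ α ∈ Icc (0 : ℝ) 1, cpFun p α ≤ C) (n : ℕ) {F : Circ → ℂ}
    (hF : MemLp F (ENNReal.ofReal p) mC) :
    eLpNorm (fun x => F x - conv (fejerKernel n) F x) (ENNReal.ofReal p) mC ≤
      ENNReal.ofReal C * eLpNorm F (ENNReal.ofReal p) mC := by
  have hp0 : 0 < p := by linarith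
  have h0 : ENNReal.ofReal p ≠ 0 := by simpa using hp0
  rw [eLpNorm_eq_lintegral_rpow_enorm_toReal h0 ENNReal.ofReal_ne_top,
    eLpNorm_eq_lintegral_rpow_enorm_toReal h0 ENNReal.ofReal_ne_top, ENNReal.toReal_ofReal hp0.le]
  have key := complex_fejer hp hC0 hC n hF
  have h1 := ENNReal.rpow_le_rpow key (show (0 : ℝ) ≤ 1 / p by positivity)
  rw [ENNReal.mul_rpow_of_nonneg _ _ (by positivity), ← ENNReal.rpow_mul,
    mul_one_div_cancel hp0.ne', ENNReal.rpow_one] at h1
  exact h1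

end Pool.Agent.W_MP_c466d4_an
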