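import Pool.Agent.W_MP_c466d4_an.Defs

namespace Pool.Agent.W_MP_c466d4_an

open Real Set

lemma continuous_cpFun {p : ℝ} (hp : 1 < p) : Continuous (cpFun p) := by
  unfold cpFun
  have h1 : 0 ≤ p - 1 := by linarith
  have h2 : 0 ≤ 1 / (p - 1) := by positivity
  have h3 : 0 ≤ 1 / p := by positivity
  have h4 : 0 ≤ 1 - 1 / p := by
    rw [sub_nonneg, div_le_one (by linarith)]; linarith
  exact (((continuous_id.rpow_const fun _ => Or.inr h1).add
    ((continuous_const.sub continuous_id).rpow_const fun _ => Or.inr h1)).rpow_const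
      fun _ => Or.inr h3).mul
    (((continuous_id.rpow_const fun _ => Or.inr h2).add
    ((continuous_const.sub continuous_id).rpow_const fun _ => Or.inr h2)).rpow_const
      fun _ => Or.inr h4)

lemma exists_isGreatest_cpFun {p : ℝ} (hp : 1 < p) :
    ∃ C, IsGreatest (cpFun p '' Icc (0 : ℝ) 1) C := by
  have hc : IsCompact (cpFun p '' Icc (0 : ℝ) 1) :=
    isCompact_Icc.image (continuous_cpFun hp)
  exact hc.exists_isGreatest ((nonempty_Icc.2 zero_le_one).image _)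

lemma cpFun_zero {p : ℝ} (hp : 1 < p) : cpFun p 0 = 1 := by
  unfold cpFun
  have h1 : p - 1 ≠ 0 := by intro h; linarith
  have h2 : 1 / (p - 1) ≠ 0 := by
    rw [one_div]; exact inv_ne_zero h1
  rw [Real.zero_rpow h1, Real.zero_rpow h2]
  simp

/-- Formula for the `p`-th power of `cpFun`. -/
lemma cpFun_rpow {p α : ℝ} (hp : 1 < p) (h0 : 0 ≤ α) (h1 : α ≤ 1) :
    cpFun p α ^ p = (α ^ (p - 1) + (1 - α) ^ (p - 1)) *
      (α ^ (1 / (p - 1)) + (1 - α) ^ (1 / (p - 1))) ^ (p - 1) := by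
  unfold cpFun
  have ha : 0 ≤ α ^ (p - 1) + (1 - α) ^ (p - 1) := by
    have := Real.rpow_nonneg h0 (p - 1)
    have := Real.rpow_nonneg (sub_nonneg.2 h1) (p - 1)
    linarith
  have hb : 0 ≤ α ^ (1 / (p - 1)) + (1 - α) ^ (1 / (p - 1)) := by
    have := Real.rpow_nonneg h0 (1 / (p - 1))
    have := Real.rpow_nonneg (sub_nonneg.2 h1) (1 / (p - 1))
    linarith
  have hp0 : p ≠ 0 := by intro h; linarith
  rw [Real.mul_rpow (Real.rpow_nonneg ha _) (Real.rpow_nonneg hb _), ← Real.rpow_mul ha,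
    ← Real.rpow_mul hb]
  congr 1
  · rw [one_div, inv_mul_cancel₀ hp0, Real.rpow_one]
  · congr 1
    field_simp

/-- The auxiliary sum `S`. -/
noncomputable def auxS (p α : ℝ) : ℝ := α ^ (-(1 / (p - 1))) + (1 - α) ^ (-(1 / (p - 1)))

lemma auxS_pos {p α : ℝ} (h0 : 0 < α) (h1 : α < 1) : 0 < auxS p α := by
  unfold auxS
  have := Real.rpow_pos_of_pos h0 (-(1 / (p - 1)))
  have := Real.rpow_pos_of_pos (sub_pos.2 h1) (-(1 / (p - 1)))
  linarith

lemma auxS_rpow {p α : ℝ} (hp : 1 < p) (h0 : 0 < α) (h1 : α < 1) :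
    (α * (1 - α) ^ p + (1 - α) * α ^ p) * auxS p α ^ (p - 1) = cpFun p α ^ p := by
  have h1' : 0 < 1 - α := sub_pos.2 h1
  rw [cpFun_rpow hp h0.le h1.le]
  have hs : auxS p α = (α ^ (1 / (p - 1)) + (1 - α) ^ (1 / (p - 1))) /
      (α ^ (1 / (p - 1)) * (1 - α) ^ (1 / (p - 1))) := by
    unfold auxS
    rw [Real.rpow_neg h0.le, Real.rpow_neg h1'.le]
    have e1 := (Real.rpow_pos_of_pos h0 (1 / (p - 1))).ne'
    have e2 := (Real.rpow_pos_of_pos h1' (1 / (p - 1))).ne'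
    field_simp
    ring
  have hpm : p - 1 ≠ 0 := by intro h; linarith
  have e1 := (Real.rpow_pos_of_pos h0 (1 / (p - 1)))
  have e2 := (Real.rpow_pos_of_pos h1' (1 / (p - 1)))
  have h3 : (α ^ (1 / (p - 1)) * (1 - α) ^ (1 / (p - 1))) ^ (p - 1) = α * (1 - α) := by
    rw [Real.mul_rpow e1.le e2.le, ← Real.rpow_mul h0.le, ← Real.rpow_mul h1'.le,
      one_div, inv_mul_cancel₀ hpm, Real.rpow_one, Real.rpow_one]
  rw [hs, Real.div_rpow (by positivity) (by positivity), h3]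
  have h4 : (1 - α) ^ p = (1 - α) ^ (p - 1) * (1 - α) := by
    rw [← Real.rpow_add_one h1'.ne']; congr 1; ring
  have h5 : α ^ p = α ^ (p - 1) * α := by
    rw [← Real.rpow_add_one h0.ne']; congr 1; ring
  rw [h4, h5]
  have h0' := h0.ne'
  have h1'' := h1'.ne'
  field_simp
  ring

lemma two_point_lhs {p α x y : ℝ} (h0 : 0 ≤ α) (h1 : α ≤ 1) :
    α * |x - (α * x + (1 - α) * y)| ^ p + (1 - α) * |y - (α * x + (1 - α) * y)| ^ p =
      |x - y| ^ p * (α * (1 - α) ^ p + (1 - α) * α ^ p) := by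
  have e1 : x - (α * x + (1 - α) * y) = (1 - α) * (x - y) := by ring
  have e2 : y - (α * x + (1 - α) * y) = -(α * (x - y)) := by ring
  rw [e1, e2, abs_neg, abs_mul, abs_mul, abs_of_nonneg h0, abs_of_nonneg (sub_nonneg.2 h1),
    Real.mul_rpow (sub_nonneg.2 h1) (abs_nonneg _), Real.mul_rpow h0 (abs_nonneg _)]
  ring

lemma holder_two {p α x y : ℝ} (hp : 1 < p) (h0 : 0 < α) (h1 : α < 1) :
    |x - y| ^ p ≤ auxS p α ^ (p - 1) * (α * |x| ^ p + (1 - α) * |y| ^ p) := by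
  have h1' : 0 < 1 - α := sub_pos.2 h1
  have hS := auxS_pos (p := p) h0 h1
  set s : ℝ := 1 / (p - 1) with hs
  have hpm : 0 < p - 1 := by linarith
  have a1 : 0 < α ^ (-s) := Real.rpow_pos_of_pos h0 _
  have a2 : 0 < (1 - α) ^ (-s) := Real.rpow_pos_of_pos h1' _
  set S := auxS p α with hSdef
  have hS' : S = α ^ (-s) + (1 - α) ^ (-s) := rfl
  have w1 : 0 < α ^ (-s) / S := by positivity
  have w2 : 0 < (1 - α) ^ (-s) / S := by positivity
  have key := (convexOn_rpow hp.le).2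
    (show |x| / (α ^ (-s) / S) ∈ Ici (0 : ℝ) from div_nonneg (abs_nonneg _) w1.le)
    (show |y| / ((1 - α) ^ (-s) / S) ∈ Ici (0 : ℝ) from div_nonneg (abs_nonneg _) w2.le)
    w1.le w2.le (by rw [← add_div, ← hS', div_self hS.ne'])
  simp only [smul_eq_mul] at key
  rw [mul_div_cancel₀ _ w1.ne', mul_div_cancel₀ _ w2.ne'] at key
  have hxy : |x - y| ^ p ≤ (|x| + |y|) ^ p :=
    Real.rpow_le_rpow (abs_nonneg _) (abs_sub _ _) (by linarith)
  refine hxy.trans (key.trans (le_of_eq ?_))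
  have term : ∀ (a z : ℝ), 0 < a → 0 ≤ z →
      a ^ (-s) / S * (z / (a ^ (-s) / S)) ^ p = S ^ (p - 1) * (a * z ^ p) := by
    intro a z ha hz
    have b1 : 0 < a ^ (-s) := Real.rpow_pos_of_pos ha _
    have b2 : 0 < a ^ (-s) / S := by positivity
    rw [Real.div_rpow hz b2.le]
    have b3 : (a ^ (-s) / S) ^ p = (a ^ (-s) / S) ^ (p - 1) * (a ^ (-s) / S) := by
      rw [← Real.rpow_add_one b2.ne']; congr 1; ring
    have b4 : (a ^ (-s) / S) ^ (p - 1) = (a * S ^ (p - 1))⁻¹ := by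
      rw [Real.div_rpow b1.le hS.le, ← Real.rpow_mul ha.le]
      have : -s * (p - 1) = -1 := by rw [hs]; field_simp
      rw [this, Real.rpow_neg_one, mul_inv, div_eq_mul_inv]
    rw [b3, b4]
    have b5 : 0 < S ^ (p - 1) := Real.rpow_pos_of_pos hS _
    field_simp
  rw [term α |x| h0 (abs_nonneg _), term (1 - α) |y| h1' (abs_nonneg _)]
  ring

/-- Two-point inequality. -/
lemma two_point {p C : ℝ} (hp : 1 < p) (hC : ∀ α ∈ Icc (0 : ℝ) 1, cpFun p α ≤ C)
    {α : ℝ} (h0 : 0 < α) (h1 : α < 1) (x y : ℝ) :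
    α * |x - (α * x + (1 - α) * y)| ^ p + (1 - α) * |y - (α * x + (1 - α) * y)| ^ p ≤
      C ^ p * (α * |x| ^ p + (1 - α) * |y| ^ p) := by
  rw [two_point_lhs h0.le h1.le]
  have h1' : 0 < 1 - α := sub_pos.2 h1
  have hb : 0 ≤ α * (1 - α) ^ p + (1 - α) * α ^ p := by positivity
  have hnn : 0 ≤ α * |x| ^ p + (1 - α) * |y| ^ p := by positivity
  have hcp : 0 ≤ cpFun p α := by unfold cpFun; positivity
  calc |x - y| ^ p * (α * (1 - α) ^ p + (1 - α) * α ^ p)
      ≤ (auxS p α ^ (p - 1) * (α * |x| ^ p + (1 - α) * |y| ^ p)) *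
        (α * (1 - α) ^ p + (1 - α) * α ^ p) := mul_le_mul_of_nonneg_right (holder_two hp h0 h1) hb
    _ = cpFun p α ^ p * (α * |x| ^ p + (1 - α) * |y| ^ p) := by
        rw [← auxS_rpow hp h0 h1]; ring
    _ ≤ C ^ p * (α * |x| ^ p + (1 - α) * |y| ^ p) := by
        apply mul_le_mul_of_nonneg_right _ hnn
        exact Real.rpow_le_rpow hcp (hC α ⟨h0.le, h1.le⟩) (by linarith)

/-- Sharpness of the two-point inequality. -/
lemma two_point_sharp {p N : ℝ} (hp : 1 < p) (hN : 0 ≤ N) {α : ℝ} (h0 : 0 < α) (h1 : α < 1)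
    (h : ∀ x y : ℝ, α * |x - (α * x + (1 - α) * y)| ^ p +
      (1 - α) * |y - (α * x + (1 - α) * y)| ^ p ≤ N ^ p * (α * |x| ^ p + (1 - α) * |y| ^ p)) :
    cpFun p α ≤ N := by
  have h1' : 0 < 1 - α := sub_pos.2 h1
  have hS := auxS_pos (p := p) h0 h1
  have hpm : 0 < p - 1 := by linarith
  set s : ℝ := 1 / (p - 1) with hs
  have a1 : 0 < α ^ (-s) := Real.rpow_pos_of_pos h0 _
  have a2 : 0 < (1 - α) ^ (-s) := Real.rpow_pos_of_pos h1' _
  have key := h (α ^ (-s)) (-(1 - α) ^ (-s))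
  rw [two_point_lhs h0.le h1.le] at key
  have e1 : |α ^ (-s) - -(1 - α) ^ (-s)| = auxS p α := by
    rw [sub_neg_eq_add]
    exact abs_of_pos hS
  have term : ∀ a : ℝ, 0 < a → a * |a ^ (-s)| ^ p = a ^ (-s) := by
    intro a ha
    rw [abs_of_pos (Real.rpow_pos_of_pos ha _), ← Real.rpow_mul ha.le, mul_comm,
      ← Real.rpow_add_one ha.ne']
    congr 1
    rw [hs]; field_simp; ring
  rw [e1, abs_neg, term α h0, term (1 - α) h1'] at key
  have e2 : α ^ (-s) + (1 - α) ^ (-s) = auxS p α := rfl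
  rw [e2] at key
  have e3 : auxS p α ^ p = auxS p α ^ (p - 1) * auxS p α := by
    rw [← Real.rpow_add_one hS.ne']; congr 1; ring
  have e4 : auxS p α ^ p * (α * (1 - α) ^ p + (1 - α) * α ^ p) = cpFun p α ^ p * auxS p α := by
    rw [← auxS_rpow hp h0 h1, e3]; ring
  rw [e4] at key
  have key2 : cpFun p α ^ p ≤ N ^ p := le_of_mul_le_mul_right key hS
  have hcp : 0 ≤ cpFun p α := by unfold cpFun; positivity
  exact (Real.rpow_le_rpow_iff hcp hN (by linarith)).1 key2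

/-- The tangent inequality at `m = 1`. -/
lemma tangent_one {p C : ℝ} (hp : 1 < p) (hC0 : 0 ≤ C)
    (hC : ∀ α ∈ Icc (0 : ℝ) 1, cpFun p α ≤ C) :
    ∃ c : ℝ, ∀ x : ℝ, |x - 1| ^ p ≤ C ^ p * |x| ^ p + c * (x - 1) := by
  set g : ℝ → ℝ := fun x => |x - 1| ^ p - C ^ p * |x| ^ p with hg
  have cross : ∀ x y : ℝ, x < 1 → 1 < y → (y - 1) * g x + (1 - x) * g y ≤ 0 := by
    intro x y hx hy
    have hd : 0 < y - x := by linarith
    set α := (y - 1) / (y - x) with hα
    have h0 : 0 < α := div_pos (by linarith) hd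
    have h1 : α < 1 := by rw [hα, div_lt_one hd]; linarith
    have e1 : 1 - α = (1 - x) / (y - x) := by rw [hα]; field_simp; ring
    have hm : α * x + (1 - α) * y = 1 := by rw [e1, hα]; field_simp; ring
    have key := two_point hp hC h0 h1 x y
    rw [hm] at key
    have key2 : α * g x + (1 - α) * g y ≤ 0 := by simp only [hg]; nlinarith
    rw [e1, hα] at key2
    have : ((y - 1) * g x + (1 - x) * g y) / (y - x) ≤ 0 := by
      calc ((y - 1) * g x + (1 - x) * g y) / (y - x)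
          = (y - 1) / (y - x) * g x + (1 - x) / (y - x) * g y := by ring
        _ ≤ 0 := key2
    by_contra hcon
    push Not at hcon
    exact absurd this (not_le.2 (div_pos hcon hd))
  set A : Set ℝ := (fun x => g x / (1 - x)) '' Iio 1 with hA
  have hAne : A.Nonempty := ⟨_, ⟨0, by simp, rfl⟩⟩
  have hub : ∀ y : ℝ, 1 < y → (-g y / (y - 1)) ∈ upperBounds A := by
    rintro y hy _ ⟨x, hx, rfl⟩
    have hx' : x < 1 := hx
    have := cross x y hx' hy
    simp only
    rw [div_le_div_iff₀ (by linarith) (by linarith)]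
    nlinarith
  have hbdd : BddAbove A := ⟨_, hub 2 (by norm_num)⟩
  refine ⟨-sSup A, fun x => ?_⟩
  have goal : g x ≤ -sSup A * (x - 1) := by
    rcases lt_trichotomy x 1 with hx | hx | hx
    · have h1 : g x / (1 - x) ≤ sSup A := le_csSup hbdd ⟨x, hx, rfl⟩
      rw [div_le_iff₀ (by linarith)] at h1
      nlinarith
    · subst hx
      simp only [hg, sub_self, abs_zero, mul_zero, abs_one, Real.one_rpow, mul_one]
      rw [Real.zero_rpow (by linarith)]
      have := Real.rpow_nonneg hC0 p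
      linarith
    · have h1 : sSup A ≤ -g x / (x - 1) := csSup_le hAne (hub x hx)
      rw [le_div_iff₀ (by linarith)] at h1
      nlinarith
  simp only [hg] at goal
  linarith

/-- The tangent inequality at general `m`. -/
lemma tangent {p C : ℝ} (hp : 1 < p) (hC0 : 0 ≤ C)
    (hC : ∀ α ∈ Icc (0 : ℝ) 1, cpFun p α ≤ C) :
    ∃ φ : ℝ → ℝ, ∀ x m : ℝ, |x - m| ^ p ≤ C ^ p * |x| ^ p + φ m * (x - m) := by
  obtain ⟨c, hc⟩ := tangent_one hp hC0 hC
  refine ⟨fun m => c * |m| ^ p / m, fun x m => ?_⟩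
  have h1C : 1 ≤ C := by
    have := hC 0 ⟨le_rfl, zero_le_one⟩
    rwa [cpFun_zero hp] at this
  rcases eq_or_ne m 0 with hm | hm
  · subst hm
    simp only [sub_zero, abs_zero, div_zero, zero_mul, add_zero]
    have h1 : 1 ≤ C ^ p := Real.one_le_rpow h1C (by linarith)
    have h2 : 0 ≤ |x| ^ p := Real.rpow_nonneg (abs_nonneg _) _
    nlinarith
  · have key := hc (x / m)
    have e1 : x / m - 1 = (x - m) / m := by field_simp
    rw [e1, abs_div, abs_div, Real.div_rpow (abs_nonneg _) (abs_nonneg _),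
      Real.div_rpow (abs_nonneg _) (abs_nonneg _)] at key
    have hmp : 0 < |m| ^ p := Real.rpow_pos_of_pos (abs_pos.2 hm) _
    have key2 := mul_le_mul_of_nonneg_right key hmp.le
    rw [div_mul_cancel₀ _ hmp.ne'] at key2
    refine key2.trans (le_of_eq ?_)
    field_simp

end Pool.Agent.W_MP_c466d4_an
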