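import Pool.Agent.W_MP_c466d4_an.Defs

namespace Pool.Agent.W_MP_c466d4_an

open MeasureTheory AddCircle
open scoped ENNReal

lemma fourier_sub_apply (k : ℤ) (x t : Circ) :
    fourier k (x - t) = fourier k x * fourier (-k) t := by
  rw [fourier_apply, fourier_apply, fourier_apply, smul_sub, sub_eq_add_neg,
    AddCircle.toCircle_add, Circle.coe_mul, neg_smul]

lemma norm_fourier_apply (k : ℤ) (x : Circ) : ‖fourier k x‖ = 1 := by
  rw [fourier_apply, Circle.norm_coe]

lemma hasSum_conv {c : ℤ → ℂ} (hc : Summable fun k => ‖c k‖) {f : Circ → ℂ}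
    (hf : Integrable f mC) (x : Circ) :
    HasSum (fun k => c k * fourierCoeff f k * fourier k x)
      (conv (fun θ => ∑' k, c k * fourier k θ) f x) := by
  have hint : ∀ k : ℤ, Integrable (fun t => c k * fourier k (x - t) * f t) mC := by
    intro k
    have := (hf.fourier_smul (-k)).const_mul (c k * fourier k x)
    refine this.congr (Filter.Eventually.of_forall fun t => ?_)
    simp only [smul_eq_mul]
    rw [fourier_sub_apply]; ring
  have hnorm : ∀ k : ℤ, ∫ t, ‖c k * fourier k (x - t) * f t‖ ∂mC = ‖c k‖ * ∫ t, ‖f t‖ ∂mC := by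
    intro k
    rw [← integral_const_mul]
    congr 1; ext t
    rw [norm_mul, norm_mul, norm_fourier_apply, mul_one]
  have hval : ∀ k : ℤ, ∫ t, c k * fourier k (x - t) * f t ∂mC =
      c k * fourierCoeff f k * fourier k x := by
    intro k
    unfold fourierCoeff
    rw [show c k * (∫ t : Circ, fourier (-k) t • f t ∂haarAddCircle) * fourier k x =
      (c k * fourier k x) * ∫ t : Circ, fourier (-k) t • f t ∂haarAddCircle by ring,
      ← integral_const_mul]
    congr 1; ext t
    rw [fourier_sub_apply, smul_eq_mul]; ring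
  have key := hasSum_integral_of_summable_integral_norm (F := fun k t =>
    c k * fourier k (x - t) * f t) hint (by simp_rw [hnorm]; exact hc.mul_right _)
  simp_rw [hval] at key
  convert! key using 1
  unfold conv
  congr 1; ext t
  rw [← tsum_mul_right]

lemma conv_finset {s : Finset ℤ} {c : ℤ → ℂ} {f : Circ → ℂ}
    (hf : Integrable f mC) (x : Circ) :
    conv (fun θ => ∑ k ∈ s, c k * fourier k θ) f x =
      ∑ k ∈ s, c k * fourierCoeff f k * fourier k x := by
  classical
  set c' : ℤ → ℂ := fun k => if k ∈ s then c k else 0 with hc'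
  have hsupp : ∀ k, k ∉ s → c' k = 0 := fun k hk => by simp [hc', hk]
  have hsum : Summable fun k => ‖c' k‖ :=
    summable_of_ne_finset_zero (s := s) fun k hk => by rw [hsupp k hk, norm_zero]
  have h1 : (fun θ : Circ => ∑ k ∈ s, c k * fourier k θ) = fun θ : Circ => ∑' k, c' k * fourier k θ := by
    ext θ
    rw [tsum_eq_sum (s := s) fun k hk => by rw [hsupp k hk, zero_mul]]
    refine Finset.sum_congr rfl fun k hk => ?_
    simp [hc', hk]
  rw [h1]
  have := hasSum_conv hsum hf x
  rw [← this.tsum_eq, tsum_eq_sum (s := s) fun k hk => by rw [hsupp k hk, zero_mul, zero_mul]]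
  refine Finset.sum_congr rfl fun k hk => ?_
  simp [hc', hk]

lemma conv_fejer (n : ℕ) {f : Circ → ℂ} (hf : Integrable f mC) (x : Circ) :
    conv (fejerKernel n) f x = ∑ k ∈ Finset.Icc (-(n : ℤ)) (n : ℤ),
      ((1 - |(k : ℝ)| / ((n : ℝ) + 1) : ℝ) : ℂ) * fourierCoeff f k * fourier k x :=
  conv_finset hf x

lemma summable_poisson {r : ℝ} (h0 : 0 ≤ r) (h1 : r < 1) :
    Summable fun k : ℤ => ‖((r ^ k.natAbs : ℝ) : ℂ)‖ := by
  have h2 : Summable fun n : ℕ => r ^ n := summable_geometric_of_lt_one h0 h1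
  apply Summable.of_nat_of_neg
  · refine h2.congr fun n => ?_
    simp [abs_of_nonneg h0]
  · refine h2.congr fun n => ?_
    simp [abs_of_nonneg h0]

lemma hasSum_conv_poisson {r : ℝ} (h0 : 0 ≤ r) (h1 : r < 1) {f : Circ → ℂ}
    (hf : Integrable f mC) (x : Circ) :
    HasSum (fun k : ℤ => ((r ^ k.natAbs : ℝ) : ℂ) * fourierCoeff f k * fourier k x)
      (conv (poissonKernel r) f x) :=
  hasSum_conv (summable_poisson h0 h1) hf x

/-- Fourier coefficients are bounded by the `L^1` norm. -/
lemma norm_fourierCoeff_le (f : Circ → ℂ) (k : ℤ) :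
    ‖fourierCoeff f k‖ ≤ ∫ t, ‖f t‖ ∂mC := by
  unfold fourierCoeff
  refine (norm_integral_le_integral_norm _).trans (le_of_eq ?_)
  congr 1; ext t
  rw [norm_smul, norm_fourier_apply, one_mul]

end Pool.Agent.W_MP_c466d4_an
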