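import Mathlib

/-!
Definitions for the norms of `I - C_K` on `L^p` of the circle.
-/

namespace Pool.Agent.W_MP_c466d4_an

open MeasureTheory AddCircle
open scoped ENNReal

/-- The circle `ℝ / 2πℤ`, the point `θ` standing for `e^{iθ}`. -/
abbrev Circ : Type := AddCircle (2 * Real.pi)

instance factTwoPi : Fact (0 < 2 * Real.pi) := ⟨Real.two_pi_pos⟩

/-- The normalised measure `dθ / 2π` on the circle. -/
noncomputable abbrev mC : Measure Circ := haarAddCircle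

/-- The Fejer kernel `K_n(θ) = ∑_{|k| ≤ n} (1 - |k|/(n+1)) e^{ikθ}`. -/
noncomputable def fejerKernel (n : ℕ) (θ : Circ) : ℂ :=
  ∑ k ∈ Finset.Icc (-(n : ℤ)) (n : ℤ), ((1 - |(k : ℝ)| / ((n : ℝ) + 1) : ℝ) : ℂ) * fourier k θ

/-- The Poisson kernel `P_r(θ) = ∑_{k ∈ ℤ} r^{|k|} e^{ikθ}`. -/
noncomputable def poissonKernel (r : ℝ) (θ : Circ) : ℂ :=
  ∑' k : ℤ, ((r ^ k.natAbs : ℝ) : ℂ) * fourier k θ

/-- The convolution `K * f` for the normalised measure. -/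
noncomputable def conv (K f : Circ → ℂ) (x : Circ) : ℂ := ∫ t, K (x - t) * f t ∂mC

/-- The norm of the operator `f ↦ f - K * f` on `L^p` of the circle, i.e. the least `C` with
`‖f - K * f‖_p ≤ C ‖f‖_p` for all `f ∈ L^p`. -/
noncomputable def normIdSub (p : ℝ≥0∞) (K : Circ → ℂ) : ℝ≥0∞ :=
  sInf {C : ℝ≥0∞ | ∀ f : Circ → ℂ, MemLp f p mC →
    eLpNorm (fun x => f x - conv K f x) p mC ≤ C * eLpNorm f p mC}

/-- The function of `α ∈ [0,1]` whose maximum is the classical constant `C_p`. -/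
noncomputable def cpFun (p α : ℝ) : ℝ :=
  (α ^ (p - 1) + (1 - α) ^ (p - 1)) ^ (1 / p) *
    (α ^ (1 / (p - 1)) + (1 - α) ^ (1 / (p - 1))) ^ (1 - 1 / p)

end Pool.Agent.W_MP_c466d4_an
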