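import Pool.Agent.W_MP_c466d4_an.Poisson

namespace Pool.Agent.W_MP_c466d4_an

open MeasureTheory AddCircle Set Filter
open scoped ENNReal ComplexConjugate Topology

lemma measurePreserving_mul (m : ℕ) (hm : 0 < m) :
    MeasurePreserving (fun x : Circ => (m : ℤ) • x) mC mC :=
  Measure.measurePreserving_zsmul mC (by exact_mod_cast hm.ne')

lemma fourierCoeff_dilate_eq_zero (f : Circ → ℂ) {m : ℕ} (hm : 0 < m) {k : ℤ} (hk : k ≠ 0)
    (hkm : k.natAbs < m) : fourierCoeff (fun x => f ((m : ℤ) • x)) k = 0 := by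
  set c : Circ := ((2 * Real.pi / m : ℝ) : Circ) with hc
  have hm0 : (m : ℝ) ≠ 0 := by exact_mod_cast hm.ne'
  have hmc : (m : ℤ) • c = 0 := by
    rw [hc, ← AddCircle.coe_zsmul, zsmul_eq_mul]
    have : ((m : ℤ) : ℝ) * (2 * Real.pi / m) = 2 * Real.pi := by
      push_cast; field_simp
    rw [this, AddCircle.coe_period]
  have h1 : fourierCoeff (fun x => f ((m : ℤ) • x)) k =
      fourier (-k) c * fourierCoeff (fun x => f ((m : ℤ) • x)) k := by
    conv_lhs => unfold fourierCoeff
    rw [← integral_add_right_eq_self (μ := haarAddCircle) _ c]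
    unfold fourierCoeff
    rw [← integral_const_mul]
    congr 1; ext t
    beta_reduce
    rw [smul_add, hmc, add_zero]
    have : fourier (-k) (t + c) = fourier (-k) c * fourier (-k) t := by
      rw [fourier_apply, smul_add, AddCircle.toCircle_add, Circle.coe_mul, mul_comm]
      rfl
    rw [this, smul_eq_mul, smul_eq_mul, mul_assoc]
  have h2 : fourier (-k) c ≠ 1 := by
    rw [hc, fourier_coe_apply]
    intro h
    rw [Complex.exp_eq_one_iff] at h
    obtain ⟨j, hj⟩ := h
    have hpi : (Real.pi : ℂ) ≠ 0 := by exact_mod_cast Real.pi_ne_zero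
    have hmC : (m : ℂ) ≠ 0 := by exact_mod_cast hm.ne'
    have hI := Complex.I_ne_zero
    push_cast at hj
    have h3 : (-(k : ℂ)) = j * m := by
      field_simp at hj
      linear_combination hj
    have h4 : -k = j * m := by exact_mod_cast h3
    have h5 : (m : ℤ) ∣ k := ⟨-j, by linarith⟩
    have h6 := Int.natAbs_dvd_natAbs.2 h5
    have h7 := Nat.le_of_dvd (Int.natAbs_pos.2 hk) h6
    simp at h7
    omega
  have h3 : (1 - fourier (-k) c) * fourierCoeff (fun x => f ((m : ℤ) • x)) k = 0 := by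
    rw [sub_mul, one_mul, ← h1, sub_self]
  rcases mul_eq_zero.1 h3 with h | h
  · exact absurd (sub_eq_zero.1 h).symm h2
  · exact h

lemma fourierCoeff_zero_eq (f : Circ → ℂ) : fourierCoeff f 0 = ∫ t, f t ∂mC := by
  unfold fourierCoeff
  congr 1; ext t
  rw [neg_zero, fourier_zero, one_smul]

/-- Tail sums. -/
noncomputable def tail (c : ℤ → ℂ) (m : ℕ) : ℝ := ∑' k : ℤ, if m ≤ k.natAbs then ‖c k‖ else 0

lemma tendsto_tail {c : ℤ → ℂ} (hc : Summable fun k => ‖c k‖) :
    Tendsto (tail c) atTop (𝓝 0) := by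
  have h := tendsto_tsum_of_dominated_convergence (𝓕 := atTop)
    (f := fun (m : ℕ) (k : ℤ) => if m ≤ k.natAbs then ‖c k‖ else 0) (g := fun _ => (0 : ℝ))
    (bound := fun k => ‖c k‖) hc ?_ ?_
  · rw [tsum_zero] at h
    exact h
  · intro k
    refine tendsto_const_nhds.congr' ?_
    filter_upwards [eventually_gt_atTop k.natAbs] with m hm
    rw [if_neg (not_le.2 hm)]
  · refine Eventually.of_forall fun m k => ?_
    split_ifs
    · rw [norm_norm]
    · rw [norm_zero]; exact norm_nonneg _

lemma norm_conv_dilate_sub_le {c : ℤ → ℂ} (hc : Summable fun k => ‖c k‖) (hc0 : c 0 = 1)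
    {f : Circ → ℂ} (hf : Integrable f mC) {m : ℕ} (hm : 0 < m) (x : Circ) :
    ‖conv (fun θ => ∑' k, c k * fourier k θ) (fun x => f ((m : ℤ) • x)) x - ∫ t, f t ∂mC‖ ≤
      tail c m * ∫ t, ‖f t‖ ∂mC := by
  have hmp := measurePreserving_mul m hm
  have hF : Integrable (fun x => f ((m : ℤ) • x)) mC := hmp.integrable_comp_of_integrable hf
  have h1 := hasSum_conv hc hF x
  have hint : ∀ g : Circ → ℝ, Integrable g mC → ∫ t, g ((m : ℤ) • t) ∂mC = ∫ t, g t ∂mC := by
    intro g hg
    have hg' : AEStronglyMeasurable g (Measure.map (fun x : Circ => (m : ℤ) • x) mC) := by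
      rw [hmp.map_eq]; exact hg.1
    rw [← integral_map hmp.measurable.aemeasurable hg', hmp.map_eq]
  have hintC : ∫ t, f ((m : ℤ) • t) ∂mC = ∫ t, f t ∂mC := by
    have hg' : AEStronglyMeasurable f (Measure.map (fun x : Circ => (m : ℤ) • x) mC) := by
      rw [hmp.map_eq]; exact hf.1
    rw [← integral_map hmp.measurable.aemeasurable hg', hmp.map_eq]
  have h0 : HasSum (fun k : ℤ => if k = 0 then (∫ t, f t ∂mC) else 0) (∫ t, f t ∂mC) :=
    hasSum_ite_eq 0 _
  have h2 := h1.sub h0
  rw [← h2.tsum_eq]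
  have hsm : Summable fun k : ℤ => (if m ≤ k.natAbs then ‖c k‖ else 0) * ∫ t, ‖f t‖ ∂mC := by
    apply Summable.mul_right
    refine Summable.of_norm_bounded hc fun k => ?_
    split_ifs
    · rw [norm_norm]
    · rw [norm_zero]; exact norm_nonneg _
  unfold tail
  rw [← tsum_mul_right]
  refine tsum_of_norm_bounded hsm.hasSum fun k => ?_
  by_cases hk : k = 0
  · subst hk
    rw [if_pos rfl, hc0, one_mul, fourier_zero, mul_one, fourierCoeff_zero_eq, hintC, sub_self,
      norm_zero]
    split_ifs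
    · exact mul_nonneg (norm_nonneg _) (integral_nonneg fun _ => norm_nonneg _)
    · rw [zero_mul]
  · rw [if_neg hk, sub_zero]
    by_cases hkm : m ≤ k.natAbs
    · rw [if_pos hkm, norm_mul, norm_mul, norm_fourier_apply, mul_one]
      apply mul_le_mul_of_nonneg_left _ (norm_nonneg _)
      refine (norm_fourierCoeff_le _ _).trans (le_of_eq ?_)
      exact hint (fun t => ‖f t‖) hf.norm
    · rw [if_neg hkm, zero_mul, fourierCoeff_dilate_eq_zero f hm hk (not_le.1 hkm), mul_zero,
        zero_mul, norm_zero]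

/-- Passing to the limit in the dilations. -/
lemma eLpNorm_sub_mean_le {q : ℝ≥0∞} (hq : 1 ≤ q) {N : ℝ≥0∞} {c : ℤ → ℂ}
    (hc : Summable fun k => ‖c k‖) (hc0 : c 0 = 1)
    (hN : ∀ F : Circ → ℂ, MemLp F q mC →
      eLpNorm (fun x => F x - conv (fun θ => ∑' k, c k * fourier k θ) F x) q mC ≤
        N * eLpNorm F q mC)
    {f : Circ → ℂ} (hf : MemLp f q mC) :
    eLpNorm (fun x => f x - ∫ t, f t ∂mC) q mC ≤ N * eLpNorm f q mC := by
  have hfi : Integrable f mC := hf.integrable hq
  set K : Circ → ℂ := fun θ => ∑' k, c k * fourier k θ with hK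
  set M := ∫ t, f t ∂mC with hM
  have hbound : ∀ m : ℕ, 0 < m → eLpNorm (fun x => f x - M) q mC ≤
      N * eLpNorm f q mC + ENNReal.ofReal (tail c m * ∫ t, ‖f t‖ ∂mC) := by
    intro m hm
    have hmp := measurePreserving_mul m hm
    set F : Circ → ℂ := fun x => f ((m : ℤ) • x) with hF
    have hFm : MemLp F q mC := hf.comp_measurePreserving hmp
    have hFi : Integrable F mC := hFm.integrable hq
    have e1 : eLpNorm (fun x => f x - M) q mC = eLpNorm (fun x => F x - M) q mC := by
      have : AEStronglyMeasurable (fun x => f x - M) mC := hf.1.sub aestronglyMeasurable_const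
      rw [← eLpNorm_comp_measurePreserving this hmp]
      rfl
    have e2 : eLpNorm F q mC = eLpNorm f q mC :=
      eLpNorm_comp_measurePreserving hf.1 hmp
    have hconv : Measurable (fun x => conv K F x) := by
      refine measurable_of_tendsto_metrizable' (u := (atTop : Filter (Finset ℤ)))
        (f := fun s x => ∑ k ∈ s, c k * fourierCoeff F k * fourier k x) (fun s => ?_) ?_
      · exact Finset.measurable_sum _ fun k _ =>
          (map_continuous (fourier k)).measurable.const_mul _
      · rw [tendsto_pi_nhds]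
        intro x
        exact hasSum_conv hc hFi x
    have e3 : (fun x => F x - M) =
        (fun x => F x - conv K F x) + fun x => conv K F x - M := by
      ext x; simp
    rw [e1, e3, ← e2]
    refine (eLpNorm_add_le (hFm.1.sub hconv.aestronglyMeasurable)
      (hconv.aestronglyMeasurable.sub aestronglyMeasurable_const) hq).trans ?_
    gcongr
    · exact hN F hFm
    · refine (eLpNorm_le_of_ae_bound (C := tail c m * ∫ t, ‖f t‖ ∂mC)
        (Eventually.of_forall fun x => norm_conv_dilate_sub_le hc hc0 hfi hm x)).trans ?_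
      rw [measure_univ, ENNReal.one_rpow, one_mul]
  have hlim : Tendsto (fun m : ℕ => N * eLpNorm f q mC +
      ENNReal.ofReal (tail c m * ∫ t, ‖f t‖ ∂mC)) atTop (𝓝 (N * eLpNorm f q mC + 0)) := by
    refine tendsto_const_nhds.add ?_
    have h1 : Tendsto (fun m : ℕ => tail c m * ∫ t, ‖f t‖ ∂mC) atTop (𝓝 0) := by
      have := (tendsto_tail hc).mul_const (∫ t, ‖f t‖ ∂mC)
      rwa [zero_mul] at this
    have := ENNReal.tendsto_ofReal h1
    rwa [ENNReal.ofReal_zero] at this
  rw [add_zero] at hlim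
  refine ge_of_tendsto hlim ?_
  filter_upwards [eventually_gt_atTop 0] with m hm using hbound m hm

lemma exists_set_measure {α : ℝ} (h1 : α < 1) :
    ∃ A : Set Circ, MeasurableSet A ∧ mC A = ENNReal.ofReal α := by
  refine ⟨Metric.closedBall 0 (Real.pi * α), measurableSet_closedBall, ?_⟩
  have h2 := AddCircle.volume_closedBall (2 * Real.pi) (x := (0 : Circ)) (Real.pi * α)
  have hpi := Real.pi_pos
  have h3 : min (2 * Real.pi) (2 * (Real.pi * α)) = 2 * Real.pi * α := by
    rw [min_eq_right]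
    · ring
    · nlinarith
  rw [h3, volume_eq_smul_haarAddCircle, Measure.smul_apply, smul_eq_mul,
    ENNReal.ofReal_mul (p := 2 * Real.pi) (by positivity)] at h2
  exact (ENNReal.mul_right_inj (by simpa using hpi) ENNReal.ofReal_ne_top).1 h2

lemma lintegral_two_valued {A : Set Circ} (hA : MeasurableSet A) (a b : ℝ≥0∞) :
    ∫⁻ x, (A.indicator (fun _ => a) x + Aᶜ.indicator (fun _ => b) x) ∂mC =
      a * mC A + b * mC Aᶜ := by
  rw [lintegral_add_left (measurable_const.indicator hA), lintegral_indicator_const hA,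
    lintegral_indicator_const hA.compl]

lemma compl_measure {A : Set Circ} (hA : MeasurableSet A) {α : ℝ} (h0 : 0 < α)
    (hAm : mC A = ENNReal.ofReal α) : mC Aᶜ = ENNReal.ofReal (1 - α) := by
  rw [prob_compl_eq_one_sub hA, hAm, ← ENNReal.ofReal_one, ENNReal.ofReal_sub _ h0.le]

/-- The lower bound for the norm. -/
lemma cpFun_le_of_bound {p : ℝ} (hp : 1 < p) {N : ℝ} (hN0 : 0 ≤ N)
    (h : ∀ f : Circ → ℂ, MemLp f (ENNReal.ofReal p) mC →
      eLpNorm (fun x => f x - ∫ t, f t ∂mC) (ENNReal.ofReal p) mC ≤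
        ENNReal.ofReal N * eLpNorm f (ENNReal.ofReal p) mC)
    {α : ℝ} (h0 : 0 < α) (h1 : α < 1) : cpFun p α ≤ N := by
  classical
  have hp0 : 0 < p := by linarith
  have hq0 : ENNReal.ofReal p ≠ 0 := by simpa using hp0
  have h1' : 0 < 1 - α := by linarith
  obtain ⟨A, hA, hAm⟩ := exists_set_measure h1
  have hAc := compl_measure hA h0 hAm
  apply two_point_sharp hp hN0 h0 h1
  intro x y
  set f : Circ → ℂ := fun t => if t ∈ A then (x : ℂ) else (y : ℂ) with hf
  have hfm : Measurable f := Measurable.ite hA measurable_const measurable_const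
  have hfL : MemLp f (ENNReal.ofReal p) mC := by
    refine MemLp.of_bound hfm.aestronglyMeasurable (|x| + |y|) (Eventually.of_forall fun t => ?_)
    simp only [hf]
    split_ifs
    · rw [Complex.norm_real, Real.norm_eq_abs]; linarith [abs_nonneg y]
    · rw [Complex.norm_real, Real.norm_eq_abs]; linarith [abs_nonneg x]
  have hmean : ∫ t, f t ∂mC = ((α * x + (1 - α) * y : ℝ) : ℂ) := by
    have e1 : f = fun t => A.indicator (fun _ => (x : ℂ)) t + Aᶜ.indicator (fun _ => (y : ℂ)) t := by
      ext t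
      simp only [hf]
      by_cases ht : t ∈ A
      · simp [ht]
      · simp [ht]
    rw [e1, integral_add ((integrable_const _).indicator hA)
      ((integrable_const _).indicator hA.compl), integral_indicator_const _ hA,
      integral_indicator_const _ hA.compl]
    unfold Measure.real
    rw [hAm, hAc, ENNReal.toReal_ofReal h0.le, ENNReal.toReal_ofReal h1'.le]
    simp only [Complex.real_smul]
    push_cast; ring
  have hval : ∀ (u v : ℝ), ∫⁻ t, ‖(if t ∈ A then (u : ℂ) else (v : ℂ))‖ₑ ^ p ∂mC =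
      ENNReal.ofReal (α * |u| ^ p + (1 - α) * |v| ^ p) := by
    intro u v
    have e1 : ∀ t, ‖(if t ∈ A then (u : ℂ) else (v : ℂ))‖ₑ ^ p =
        A.indicator (fun _ => ENNReal.ofReal (|u| ^ p)) t +
          Aᶜ.indicator (fun _ => ENNReal.ofReal (|v| ^ p)) t := by
      intro t
      have e2 : ∀ w : ℝ, ‖(w : ℂ)‖ₑ ^ p = ENNReal.ofReal (|w| ^ p) := by
        intro w
        rw [← ofReal_norm, Complex.norm_real, Real.norm_eq_abs,
          ENNReal.ofReal_rpow_of_nonneg (abs_nonneg _) hp0.le]
      by_cases ht : t ∈ A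
      · simp [ht, e2]
      · simp [ht, e2]
    simp_rw [e1]
    rw [lintegral_two_valued hA, hAm, hAc, ← ENNReal.ofReal_mul (by positivity),
      ← ENNReal.ofReal_mul (by positivity), ← ENNReal.ofReal_add (by positivity) (by positivity)]
    congr 1; ring
  have key := h f hfL
  rw [eLpNorm_eq_lintegral_rpow_enorm_toReal hq0 ENNReal.ofReal_ne_top,
    eLpNorm_eq_lintegral_rpow_enorm_toReal hq0 ENNReal.ofReal_ne_top, ENNReal.toReal_ofReal hp0.le,
    hmean] at key
  set m : ℝ := α * x + (1 - α) * y with hm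
  have e3 : ∀ t, f t - ((m : ℝ) : ℂ) =
      if t ∈ A then ((x - m : ℝ) : ℂ) else ((y - m : ℝ) : ℂ) := by
    intro t
    simp only [hf]
    split_ifs <;> push_cast <;> rfl
  simp_rw [e3] at key
  rw [hval] at key
  have e4 : ∫⁻ t, ‖f t‖ₑ ^ p ∂mC = ENNReal.ofReal (α * |x| ^ p + (1 - α) * |y| ^ p) := hval x y
  rw [e4] at key
  have key2 := ENNReal.rpow_le_rpow key hp0.le
  rw [ENNReal.mul_rpow_of_nonneg _ _ hp0.le, ← ENNReal.rpow_mul, ← ENNReal.rpow_mul,
    one_div_mul_cancel hp0.ne', ENNReal.rpow_one, ENNReal.rpow_one,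
    ENNReal.ofReal_rpow_of_nonneg hN0 hp0.le, ← ENNReal.ofReal_mul (by positivity)] at key2
  exact (ENNReal.ofReal_le_ofReal_iff (by positivity)).1 key2

end Pool.Agent.W_MP_c466d4_an
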