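import Pool.Agent.W_MP_c466d4_an.Complexify

namespace Pool.Agent.W_MP_c466d4_an

open MeasureTheory AddCircle Set Filter
open scoped ENNReal ComplexConjugate Topology

/-- Fejer weights as a function on all of `ℤ`. -/
noncomputable def fw (n : ℕ) (k : ℤ) : ℝ := ((n + 1 - k.natAbs : ℕ) : ℝ) / ((n : ℝ) + 1)

/-- Abel weights. -/
noncomputable def aw (r : ℝ) (n : ℕ) : ℝ := (1 - r) ^ 2 * (((n : ℝ) + 1) * r ^ n)

lemma fw_nonneg (n : ℕ) (k : ℤ) : 0 ≤ fw n k := by
  unfold fw; positivity

lemma aw_nonneg {r : ℝ} (h0 : 0 ≤ r) (n : ℕ) : 0 ≤ aw r n := by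
  unfold aw; positivity

lemma hasSum_aw_fw {r : ℝ} (h0 : 0 ≤ r) (h1 : r < 1) (k : ℤ) :
    HasSum (fun n : ℕ => aw r n * fw n k) (r ^ k.natAbs) := by
  set m := k.natAbs with hm
  have hr : ‖r‖ < 1 := by rwa [Real.norm_of_nonneg h0]
  have h2 := (hasSum_choose_mul_geometric_of_norm_lt_one 1 hr).mul_left ((1 - r) ^ 2 * r ^ m)
  have hr1 : (1 - r) ≠ 0 := by intro h; linarith
  have h3 : (1 - r) ^ 2 * r ^ m * (1 / (1 - r) ^ (1 + 1)) = r ^ m := by
    field_simp
    ring
  rw [h3] at h2
  have hinj : Function.Injective (fun j : ℕ => j + m) := fun a b h => by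
    simpa using h
  rw [← hinj.hasSum_iff]
  · refine h2.congr_fun ?_ |> fun h => h
    intro j
    simp only [Function.comp_apply]
    unfold aw fw
    have e1 : j + m + 1 - k.natAbs = j + 1 := by omega
    rw [e1, Nat.choose_one_right]
    have e2 : ((j + m : ℕ) : ℝ) + 1 ≠ 0 := by positivity
    push_cast at e2 ⊢
    field_simp
    ring
  · intro n hn
    have hlt : n < m := by
      by_contra hcon
      push Not at hcon
      exact hn ⟨n - m, by simp only; omega⟩
    unfold fw
    have : n + 1 - k.natAbs = 0 := by omega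
    rw [this]; simp

lemma hasSum_aw {r : ℝ} (h0 : 0 ≤ r) (h1 : r < 1) : HasSum (aw r) 1 := by
  have h := hasSum_aw_fw h0 h1 0
  simp only [Int.natAbs_zero, pow_zero] at h
  refine h.congr_fun ?_ |> fun h => h
  intro n
  unfold fw
  simp only [Int.natAbs_zero, tsub_zero]
  push_cast
  rw [div_self (by positivity), mul_one]

lemma conv_fejer_hasSum (n : ℕ) {F : Circ → ℂ} (hF : Integrable F mC) (x : Circ) :
    HasSum (fun k : ℤ => ((fw n k : ℝ) : ℂ) * (fourierCoeff F k * fourier k x))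
      (conv (fejerKernel n) F x) := by
  rw [conv_fejer n hF x]
  have h1 : ∑ k ∈ Finset.Icc (-(n : ℤ)) (n : ℤ),
      ((1 - |(k : ℝ)| / ((n : ℝ) + 1) : ℝ) : ℂ) * fourierCoeff F k * fourier k x =
      ∑ k ∈ Finset.Icc (-(n : ℤ)) (n : ℤ),
        ((fw n k : ℝ) : ℂ) * (fourierCoeff F k * fourier k x) := by
    refine Finset.sum_congr rfl fun k hk => ?_
    rw [mul_assoc]
    congr 2
    simp only [Finset.mem_Icc] at hk
    unfold fw
    have hle : k.natAbs ≤ n + 1 := by omega
    rw [Nat.cast_sub hle]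
    have habs : ((k.natAbs : ℕ) : ℝ) = |(k : ℝ)| := by
      rw [Nat.cast_natAbs, Int.cast_abs]
    rw [habs]
    push_cast
    have : (n : ℝ) + 1 ≠ 0 := by positivity
    field_simp
  rw [h1]
  apply hasSum_sum_of_ne_finset_zero
  intro k hk
  simp only [Finset.mem_Icc] at hk
  unfold fw
  have : n + 1 - k.natAbs = 0 := by omega
  rw [this]; simp

/-- Poisson means are averages of Fejer means. -/
lemma hasSum_aw_conv_fejer {r : ℝ} (h0 : 0 ≤ r) (h1 : r < 1) {F : Circ → ℂ}
    (hF : Integrable F mC) (x : Circ) :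
    HasSum (fun n : ℕ => ((aw r n : ℝ) : ℂ) * conv (fejerKernel n) F x)
      (conv (poissonKernel r) F x) := by
  set M := ∫ t, ‖F t‖ ∂mC with hM
  set a : ℤ → ℂ := fun k => fourierCoeff F k * fourier k x with ha
  have hab : ∀ k, ‖a k‖ ≤ M := fun k => by
    rw [ha]; simp only
    rw [norm_mul, norm_fourier_apply, mul_one]
    exact norm_fourierCoeff_le F k
  have hM0 : 0 ≤ M := integral_nonneg fun _ => norm_nonneg _
  -- the double family, indexed by (k, n)
  set u : ℤ × ℕ → ℝ := fun z => aw r z.2 * fw z.2 z.1 with hu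
  have hu0 : 0 ≤ u := fun z => mul_nonneg (aw_nonneg h0 _) (fw_nonneg _ _)
  have hpois : Summable fun k : ℤ => r ^ k.natAbs := by
    have := summable_poisson h0 h1
    refine this.congr fun k => ?_
    rw [Complex.norm_real, Real.norm_of_nonneg (pow_nonneg h0 _)]
  have husum : Summable u := by
    rw [summable_prod_of_nonneg hu0]
    refine ⟨fun k => (hasSum_aw_fw h0 h1 k).summable, ?_⟩
    refine hpois.congr fun k => ?_
    exact ((hasSum_aw_fw h0 h1 k).tsum_eq).symm
  set v : ℤ × ℕ → ℂ := fun z => ((aw r z.2 : ℝ) : ℂ) * (((fw z.2 z.1 : ℝ) : ℂ) * a z.1) with hv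
  have hvn : ∀ z, ‖v z‖ ≤ u z * M := by
    intro z
    rw [hv]; simp only
    rw [norm_mul, norm_mul, Complex.norm_real, Complex.norm_real,
      Real.norm_of_nonneg (aw_nonneg h0 _), Real.norm_of_nonneg (fw_nonneg _ _), ← mul_assoc]
    exact mul_le_mul_of_nonneg_left (hab _) (mul_nonneg (aw_nonneg h0 _) (fw_nonneg _ _))
  have hvsum : Summable v := Summable.of_norm_bounded (husum.mul_right M) hvn
  have hS := hvsum.hasSum
  -- sum over n first
  have h3 : ∀ k, HasSum (fun n => v (k, n)) (((r ^ k.natAbs : ℝ) : ℂ) * a k) := by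
    intro k
    have := ((hasSum_aw_fw h0 h1 k).mapL Complex.ofRealCLM).mul_right (a k)
    refine this.congr_fun ?_ |> fun h => h
    intro n
    simp only [hv, Complex.ofRealCLM_apply]
    push_cast; ring
  have h4 := hS.prod_fiberwise h3
  have h5 := hasSum_conv_poisson h0 h1 hF x
  have h6 : ∑' z, v z = conv (poissonKernel r) F x := by
    refine h4.unique ?_
    refine h5.congr_fun ?_ |> fun h => h
    intro k
    simp only [ha]
    ring
  rw [h6] at hS
  -- sum over k first
  have hS' : HasSum (fun z : ℕ × ℤ => v (z.2, z.1)) (conv (poissonKernel r) F x) := by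
    have := (Equiv.prodComm ℕ ℤ).hasSum_iff (f := v) (a := conv (poissonKernel r) F x)
    exact this.2 hS
  have h7 : ∀ n, HasSum (fun k => v (k, n)) (((aw r n : ℝ) : ℂ) * conv (fejerKernel n) F x) := by
    intro n
    exact (conv_fejer_hasSum n hF x).mul_left _
  exact hS'.prod_fiberwise h7

/-- Poisson means: the upper bound in terms of norms. -/
lemma eLpNorm_poisson {p C : ℝ} (hp : 1 < p) (hC0 : 0 ≤ C)
    (hC : ∀ α ∈ Icc (0 : ℝ) 1, cpFun p α ≤ C) {r : ℝ} (h0 : 0 ≤ r) (h1 : r < 1) {F : Circ → ℂ}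
    (hF : MemLp F (ENNReal.ofReal p) mC) :
    eLpNorm (fun x => F x - conv (poissonKernel r) F x) (ENNReal.ofReal p) mC ≤
      ENNReal.ofReal C * eLpNorm F (ENNReal.ofReal p) mC := by
  have hp1 : (1 : ℝ≥0∞) ≤ ENNReal.ofReal p := by
    rw [← ENNReal.ofReal_one]; exact ENNReal.ofReal_le_ofReal hp.le
  have hFi : Integrable F mC := hF.integrable hp1
  set g : ℕ → Circ → ℂ := fun n => ((aw r n : ℝ) : ℂ) • fun x => F x - conv (fejerKernel n) F x
    with hg
  have hgm : ∀ n, AEStronglyMeasurable (g n) mC := fun n =>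
    (hF.1.sub (continuous_conv_fejer n hFi).aestronglyMeasurable).const_smul _
  refine Lp.eLpNorm_le_of_ae_tendsto (u := atTop) (f := fun N => ∑ n ∈ Finset.range N, g n)
    (Eventually.of_forall fun N => ?_) (fun N => ?_) (Eventually.of_forall fun x => ?_)
  · refine (eLpNorm_sum_le (fun n _ => hgm n) hp1).trans ?_
    have hterm : ∀ n, eLpNorm (g n) (ENNReal.ofReal p) mC ≤
        ENNReal.ofReal (aw r n) * (ENNReal.ofReal C * eLpNorm F (ENNReal.ofReal p) mC) := by
      intro n
      rw [hg]; simp only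
      rw [eLpNorm_const_smul]
      have e1 : ‖((aw r n : ℝ) : ℂ)‖ₑ = ENNReal.ofReal (aw r n) := by
        rw [← ofReal_norm, Complex.norm_real, Real.norm_of_nonneg (aw_nonneg h0 n)]
      rw [e1]
      gcongr
      exact eLpNorm_fejer hp hC0 hC n hF
    refine (Finset.sum_le_sum fun n _ => hterm n).trans ?_
    rw [← Finset.sum_mul, ← ENNReal.ofReal_sum_of_nonneg fun n _ => aw_nonneg h0 n]
    have e2 : ∑ n ∈ Finset.range N, aw r n ≤ 1 :=
      sum_le_hasSum _ (fun n _ => aw_nonneg h0 n) (hasSum_aw h0 h1)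
    calc ENNReal.ofReal (∑ n ∈ Finset.range N, aw r n) *
          (ENNReal.ofReal C * eLpNorm F (ENNReal.ofReal p) mC)
        ≤ ENNReal.ofReal 1 * (ENNReal.ofReal C * eLpNorm F (ENNReal.ofReal p) mC) := by
          gcongr
      _ = _ := by rw [ENNReal.ofReal_one, one_mul]
  · exact Finset.aestronglyMeasurable_sum _ fun n _ => hgm n
  · have e1 := hasSum_aw_conv_fejer h0 h1 hFi x
    have e2 : HasSum (fun n : ℕ => ((aw r n : ℝ) : ℂ) * F x) (F x) := by
      have := ((hasSum_aw h0 h1).mapL Complex.ofRealCLM).mul_right (F x)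
      simpa using this
    have e3 := (e2.sub e1).tendsto_sum_nat
    refine e3.congr fun N => ?_
    rw [Finset.sum_apply]
    refine Finset.sum_congr rfl fun n _ => ?_
    simp only [hg, Pi.smul_apply, smul_eq_mul]
    ring

end Pool.Agent.W_MP_c466d4_an
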