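import Pool.Agent.W_MP_c466d4_an.Toeplitz
import Pool.Agent.W_MP_c466d4_an.Const

namespace Pool.Agent.W_MP_c466d4_an

open MeasureTheory AddCircle Set
open scoped ENNReal ComplexConjugate

/-- Jensen for finite convex combinations and `|·|^p`. -/
lemma abs_sum_rpow_le {p : ℝ} (hp : 1 < p) {ι : Type} [Fintype ι] (w z : ι → ℝ)
    (hw : ∀ i, 0 ≤ w i) (hw1 : ∑ i, w i = 1) :
    |∑ i, w i * z i| ^ p ≤ ∑ i, w i * |z i| ^ p := by
  have h1 : |∑ i, w i * z i| ≤ ∑ i, w i * |z i| := by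
    refine (Finset.abs_sum_le_sum_abs _ _).trans (le_of_eq ?_)
    refine Finset.sum_congr rfl fun i _ => ?_
    rw [abs_mul, abs_of_nonneg (hw i)]
  refine (Real.rpow_le_rpow (abs_nonneg _) h1 (by linarith)).trans ?_
  exact Real.rpow_arith_mean_le_arith_mean_rpow Finset.univ w (fun i => |z i|)
    (fun i _ => hw i) hw1 (fun i _ => abs_nonneg _) hp.le

lemma enorm_rpow_eq {p : ℝ} (hp : 0 ≤ p) (a : ℝ) : ‖a‖ₑ ^ p = ENNReal.ofReal (|a| ^ p) := by
  rw [Real.enorm_eq_ofReal_abs, ENNReal.ofReal_rpow_of_nonneg (abs_nonneg _) hp]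

lemma lintegral_enorm_rpow_eq {p : ℝ} (hp : 1 < p) {f : Circ → ℝ}
    (hf : MemLp f (ENNReal.ofReal p) mC) :
    ∫⁻ x, ‖f x‖ₑ ^ p ∂mC = ENNReal.ofReal (∫ x, |f x| ^ p ∂mC) := by
  have hp0 : 0 < p := by linarith
  have hi : Integrable (fun x => |f x| ^ p) mC := by
    have := hf.integrable_norm_rpow (by simpa using hp0) ENNReal.ofReal_ne_top
    rw [ENNReal.toReal_ofReal hp0.le] at this
    exact this
  rw [ofReal_integral_eq_lintegral_ofReal hi
    (Filter.Eventually.of_forall fun x => Real.rpow_nonneg (abs_nonneg _) _)]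
  exact lintegral_congr fun x => enorm_rpow_eq hp0.le _

lemma real_ineq {p C : ℝ} (hp : 1 < p) (hC0 : 0 ≤ C) (hC : ∀ α ∈ Icc (0 : ℝ) 1, cpFun p α ≤ C)
    {ι : Type} [Fintype ι] {f : Circ → ℝ} (hf : MemLp f (ENNReal.ofReal p) mC)
    (a : ι → ℝ) (w : ι → Circ → ℝ) (hwc : ∀ l, Continuous (w l)) (hw0 : ∀ l x, 0 ≤ w l x)
    (hw1 : ∀ x, ∑ l, w l x = 1) (hm : ∀ l, ∫ x, (f x - a l) * w l x ∂mC = 0) :
    ∫⁻ x, ‖f x - ∑ l, w l x * a l‖ₑ ^ p ∂mC ≤ ENNReal.ofReal C ^ p * ∫⁻ x, ‖f x‖ₑ ^ p ∂mC := by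
  have hp0 : 0 < p := by linarith
  obtain ⟨φ, hφ⟩ := tangent hp hC0 hC
  have hbdd : ∀ l, ∃ B, ∀ x, ‖w l x‖ ≤ B := by
    intro l
    obtain ⟨B, hB⟩ := (isCompact_range (hwc l)).isBounded.exists_norm_le
    exact ⟨B, fun x => hB _ ⟨x, rfl⟩⟩
  have hfi : Integrable f mC := hf.integrable (by
    rw [← ENNReal.ofReal_one]; exact ENNReal.ofReal_le_ofReal hp.le)
  have hgc : Continuous fun x => ∑ l, w l x * a l :=
    continuous_finsetSum _ fun l _ => (hwc l).mul continuous_const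
  have hg : MemLp (fun x => ∑ l, w l x * a l) (ENNReal.ofReal p) mC := by
    obtain ⟨B, hB⟩ := (isCompact_range hgc).isBounded.exists_norm_le
    exact MemLp.of_bound hgc.aestronglyMeasurable B
      (Filter.Eventually.of_forall fun x => hB _ ⟨x, rfl⟩)
  have hfg : MemLp (fun x => f x - ∑ l, w l x * a l) (ENNReal.ofReal p) mC := hf.sub hg
  rw [lintegral_enorm_rpow_eq hp hfg, lintegral_enorm_rpow_eq hp hf,
    ENNReal.ofReal_rpow_of_nonneg hC0 hp0.le, ← ENNReal.ofReal_mul (Real.rpow_nonneg hC0 _)]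
  apply ENNReal.ofReal_le_ofReal
  have hi1 : Integrable (fun x => |f x - ∑ l, w l x * a l| ^ p) mC := by
    have := hfg.integrable_norm_rpow (by simpa using hp0) ENNReal.ofReal_ne_top
    rw [ENNReal.toReal_ofReal hp0.le] at this
    exact this
  have hi2 : Integrable (fun x => |f x| ^ p) mC := by
    have := hf.integrable_norm_rpow (by simpa using hp0) ENNReal.ofReal_ne_top
    rw [ENNReal.toReal_ofReal hp0.le] at this
    exact this
  have hi3 : ∀ l, Integrable (fun x => (f x - a l) * w l x) mC := by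
    intro l
    obtain ⟨B, hB⟩ := hbdd l
    exact (hfi.sub (integrable_const _)).mul_bdd (c := B) (hwc l).aestronglyMeasurable
      (Filter.Eventually.of_forall hB)
  have hi4 : Integrable (fun x => ∑ l, φ (a l) * ((f x - a l) * w l x)) mC :=
    integrable_finsetSum _ fun l _ => (hi3 l).const_mul _
  have hpt : ∀ x, |f x - ∑ l, w l x * a l| ^ p ≤
      C ^ p * |f x| ^ p + ∑ l, φ (a l) * ((f x - a l) * w l x) := by
    intro x
    have e1 : f x - ∑ l, w l x * a l = ∑ l, w l x * (f x - a l) := by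
      simp_rw [mul_sub]
      rw [Finset.sum_sub_distrib, ← Finset.sum_mul, hw1 x, one_mul]
    rw [e1]
    refine (abs_sum_rpow_le hp (fun l => w l x) (fun l => f x - a l) (fun l => hw0 l x)
      (hw1 x)).trans ?_
    have e2 : C ^ p * |f x| ^ p + ∑ l, φ (a l) * ((f x - a l) * w l x) =
        ∑ l, w l x * (C ^ p * |f x| ^ p + φ (a l) * (f x - a l)) := by
      simp_rw [mul_add]
      rw [Finset.sum_add_distrib, ← Finset.sum_mul, hw1 x, one_mul]
      congr 1
      refine Finset.sum_congr rfl fun l _ => ?_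
      ring
    rw [e2]
    refine Finset.sum_le_sum fun l _ => mul_le_mul_of_nonneg_left (hφ _ _) (hw0 l x)
  calc ∫ x, |f x - ∑ l, w l x * a l| ^ p ∂mC
      ≤ ∫ x, (C ^ p * |f x| ^ p + ∑ l, φ (a l) * ((f x - a l) * w l x)) ∂mC :=
        integral_mono hi1 ((hi2.const_mul _).add hi4) hpt
    _ = C ^ p * ∫ x, |f x| ^ p ∂mC := by
        rw [integral_add (hi2.const_mul _) hi4, integral_const_mul, integral_finsetSum _
          fun l _ => (hi3 l).const_mul _]
        simp_rw [integral_const_mul, hm]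
        simp

/-- The inequality for real functions and Fejer means. -/
lemma real_fejer {p C : ℝ} (hp : 1 < p) (hC0 : 0 ≤ C) (hC : ∀ α ∈ Icc (0 : ℝ) 1, cpFun p α ≤ C)
    (n : ℕ) {f : Circ → ℝ} (hf : MemLp f (ENNReal.ofReal p) mC) :
    ∫⁻ x, ‖(f x : ℂ) - conv (fejerKernel n) (fun y => (f y : ℂ)) x‖ₑ ^ p ∂mC ≤
      ENNReal.ofReal C ^ p * ∫⁻ x, ‖f x‖ₑ ^ p ∂mC := by
  have hfi : Integrable f mC := hf.integrable (by
    rw [← ENNReal.ofReal_one]; exact ENNReal.ofReal_le_ofReal hp.le)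
  obtain ⟨a, w, h1, h2, h3, h4, h5⟩ := exists_weights n hfi
  refine le_trans (le_of_eq ?_) (real_ineq hp hC0 hC hf a w h1 h2 h3 h5)
  refine lintegral_congr fun x => ?_
  rw [h4 x, ← Complex.ofReal_sub]
  congr 1
  rw [← ofReal_norm, ← ofReal_norm, Complex.norm_real]

end Pool.Agent.W_MP_c466d4_an
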