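import Pool.Agent.W_MP_c466d4_an.Conv

namespace Pool.Agent.W_MP_c466d4_an

open MeasureTheory AddCircle Matrix
open scoped ENNReal ComplexConjugate

/-- Spectral decomposition in matrix form. -/
lemma exists_diag {ι : Type} [Fintype ι] [DecidableEq ι] (A : Matrix ι ι ℂ) (hA : A.IsHermitian) :
    ∃ (U : Matrix ι ι ℂ) (a : ι → ℝ), U * star U = 1 ∧ star U * U = 1 ∧
      A = U * diagonal (fun i => ((a i : ℝ) : ℂ)) * star U := by
  refine ⟨(hA.eigenvectorUnitary : Matrix ι ι ℂ), hA.eigenvalues, ?_, ?_, ?_⟩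
  · exact Unitary.mul_star_self_of_mem hA.eigenvectorUnitary.2
  · exact Unitary.star_mul_self_of_mem hA.eigenvectorUnitary.2
  · have := hA.spectral_theorem
    rw [Unitary.conjStarAlgAut_apply] at this
    exact this

/-- Counting the diagonals of an `(n+1) × (n+1)` matrix. -/
lemma sum_toeplitz (n : ℕ) (g : ℤ → ℂ) :
    ∑ j ∈ Finset.range (n + 1), ∑ k ∈ Finset.range (n + 1), g ((j : ℤ) - (k : ℤ)) =
      ∑ m ∈ Finset.Icc (-(n : ℤ)) (n : ℤ), ((((n : ℤ) + 1 - |m| : ℤ)) : ℂ) * g m := by
  induction n with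
  | zero => simp
  | succ n ih =>
    have hL : ∑ j ∈ Finset.range (n + 1 + 1), ∑ k ∈ Finset.range (n + 1 + 1),
        g ((j : ℤ) - (k : ℤ)) =
        ∑ j ∈ Finset.range (n + 1), ∑ k ∈ Finset.range (n + 1), g ((j : ℤ) - (k : ℤ)) +
        ∑ j ∈ Finset.range (n + 1), g ((j : ℤ) - ((n + 1 : ℕ) : ℤ)) +
        ∑ k ∈ Finset.range (n + 1 + 1), g (((n + 1 : ℕ) : ℤ) - (k : ℤ)) := by
      rw [Finset.sum_range_succ _ (n + 1)]
      congr 1
      rw [← Finset.sum_add_distrib]
      refine Finset.sum_congr rfl fun j _ => ?_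
      rw [Finset.sum_range_succ _ (n + 1)]
    have hA : ∑ j ∈ Finset.range (n + 1), g ((j : ℤ) - ((n + 1 : ℕ) : ℤ)) =
        ∑ m ∈ Finset.Icc (-((n + 1 : ℕ) : ℤ)) (-1), g m := by
      refine Finset.sum_bij (fun j _ => (j : ℤ) - ((n + 1 : ℕ) : ℤ)) ?_ ?_ ?_ ?_
      · intro j hj
        simp only [Finset.mem_range] at hj
        simp only [Finset.mem_Icc]
        omega
      · intro j _ k _ h
        omega
      · intro m hm
        simp only [Finset.mem_Icc] at hm
        refine ⟨(m + (n + 1 : ℕ)).toNat, ?_, ?_⟩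
        · simp only [Finset.mem_range]; omega
        · omega
      · intro j _; rfl
    have hB : ∑ k ∈ Finset.range (n + 1 + 1), g (((n + 1 : ℕ) : ℤ) - (k : ℤ)) =
        ∑ m ∈ Finset.Icc (0 : ℤ) ((n + 1 : ℕ) : ℤ), g m := by
      refine Finset.sum_bij (fun k _ => ((n + 1 : ℕ) : ℤ) - (k : ℤ)) ?_ ?_ ?_ ?_
      · intro j hj
        simp only [Finset.mem_range] at hj
        simp only [Finset.mem_Icc]
        omega
      · intro j _ k _ h
        omega
      · intro m hm
        simp only [Finset.mem_Icc] at hm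
        refine ⟨((n + 1 : ℕ) - m).toNat, ?_, ?_⟩
        · simp only [Finset.mem_range]; omega
        · omega
      · intro j _; rfl
    have hC : ∑ m ∈ Finset.Icc (-((n + 1 : ℕ) : ℤ)) (-1), g m +
        ∑ m ∈ Finset.Icc (0 : ℤ) ((n + 1 : ℕ) : ℤ), g m =
        ∑ m ∈ Finset.Icc (-((n + 1 : ℕ) : ℤ)) ((n + 1 : ℕ) : ℤ), g m := by
      rw [← Finset.sum_union]
      · congr 1
        ext m
        simp only [Finset.mem_union, Finset.mem_Icc]
        omega
      · rw [Finset.disjoint_left]
        intro m h1 h2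
        simp only [Finset.mem_Icc] at h1 h2
        omega
    have hD : ∑ m ∈ Finset.Icc (-(n : ℤ)) (n : ℤ), ((((n : ℤ) + 1 - |m| : ℤ)) : ℂ) * g m =
        ∑ m ∈ Finset.Icc (-((n + 1 : ℕ) : ℤ)) ((n + 1 : ℕ) : ℤ),
          ((((n : ℤ) + 1 - |m| : ℤ)) : ℂ) * g m := by
      refine Finset.sum_subset ?_ ?_
      · intro m
        simp only [Finset.mem_Icc]
        omega
      · intro m h1 h2
        simp only [Finset.mem_Icc] at h1 h2
        have : (n : ℤ) + 1 - |m| = 0 := by
          rcases abs_cases m with ⟨h, _⟩ | ⟨h, _⟩ <;> rw [h] <;> omega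
        rw [this]; simp
    rw [hL, ih, hA, hB, add_assoc, hC, hD, ← Finset.sum_add_distrib]
    refine Finset.sum_congr rfl fun m _ => ?_
    push_cast
    ring

variable (n : ℕ)

/-- The Toeplitz matrix of `F`. -/
noncomputable def toep (F : Circ → ℂ) : Matrix (Fin (n + 1)) (Fin (n + 1)) ℂ :=
  fun j k => fourierCoeff F ((j : ℤ) - (k : ℤ))

lemma conj_fourierCoeff_real (f : Circ → ℝ) (k : ℤ) :
    conj (fourierCoeff (fun x => (f x : ℂ)) k) = fourierCoeff (fun x => (f x : ℂ)) (-k) := by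
  unfold fourierCoeff
  rw [← integral_conj]
  congr 1; ext t
  rw [smul_eq_mul, smul_eq_mul, map_mul, Complex.conj_ofReal, fourier_neg, fourier_neg]
  rw [fourier_neg]

lemma toep_isHermitian (f : Circ → ℝ) : (toep n (fun x => (f x : ℂ))).IsHermitian := by
  ext j k
  rw [Matrix.conjTranspose_apply]
  unfold toep
  rw [RCLike.star_def, conj_fourierCoeff_real]
  congr 1; ring

/-- vector of exponentials -/
noncomputable def expVec (x : Circ) : Fin (n + 1) → ℂ := fun j => fourier (j : ℤ) x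

/-- The weight functions attached to a matrix `U`. -/
noncomputable def wt (U : Matrix (Fin (n + 1)) (Fin (n + 1)) ℂ) (l : Fin (n + 1)) (x : Circ) : ℝ :=
  Complex.normSq (∑ j, expVec n x j * U j l) / (n + 1)

lemma wt_nonneg (U : Matrix (Fin (n + 1)) (Fin (n + 1)) ℂ) (l : Fin (n + 1)) (x : Circ) :
    0 ≤ wt n U l x := by
  unfold wt
  have := Complex.normSq_nonneg (∑ j, expVec n x j * U j l)
  positivity

lemma continuous_wt (U : Matrix (Fin (n + 1)) (Fin (n + 1)) ℂ) (l : Fin (n + 1)) :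
    Continuous (wt n U l) := by
  unfold wt expVec
  refine Continuous.div_const ?_ _
  refine Complex.continuous_normSq.comp ?_
  refine continuous_finsetSum _ fun j _ => ?_
  exact (map_continuous (fourier (j : ℤ))).mul continuous_const

lemma fourier_mul_conj (j k : ℤ) (x : Circ) :
    fourier j x * conj (fourier k x) = fourier (j - k) x := by
  rw [← fourier_neg, ← fourier_add, sub_eq_add_neg]

lemma wt_expand (U : Matrix (Fin (n + 1)) (Fin (n + 1)) ℂ) (l : Fin (n + 1)) (x : Circ) :
    ((wt n U l x : ℝ) : ℂ) * (n + 1) =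
      ∑ j, ∑ k, (U j l * conj (U k l)) * fourier ((j : ℤ) - (k : ℤ)) x := by
  have hn : ((n : ℂ) + 1) ≠ 0 := Nat.cast_add_one_ne_zero n
  unfold wt
  push_cast
  rw [div_mul_cancel₀ _ hn, Complex.normSq_eq_conj_mul_self, mul_comm, map_sum,
    Finset.sum_mul_sum]
  refine Finset.sum_congr rfl fun j _ => Finset.sum_congr rfl fun k _ => ?_
  rw [← fourier_mul_conj, map_mul]
  unfold expVec
  ring

/-- The weights average matrices. -/
lemma sum_wt (U : Matrix (Fin (n + 1)) (Fin (n + 1)) ℂ) (a : Fin (n + 1) → ℂ) (x : Circ) :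
    (∑ l, a l * ((wt n U l x : ℝ) : ℂ)) * (n + 1) =
      ∑ j, ∑ k, (U * diagonal a * star U) j k * fourier ((j : ℤ) - (k : ℤ)) x := by
  rw [Finset.sum_mul]
  have h1 : ∀ l, a l * ((wt n U l x : ℝ) : ℂ) * (n + 1) =
      ∑ j, ∑ k, (U j l * a l * conj (U k l)) * fourier ((j : ℤ) - (k : ℤ)) x := by
    intro l
    rw [mul_assoc, wt_expand, Finset.mul_sum]
    refine Finset.sum_congr rfl fun j _ => ?_
    rw [Finset.mul_sum]
    refine Finset.sum_congr rfl fun k _ => ?_
    ring
  rw [Finset.sum_congr rfl fun l _ => h1 l, Finset.sum_comm]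
  refine Finset.sum_congr rfl fun j _ => ?_
  rw [Finset.sum_comm]
  refine Finset.sum_congr rfl fun k _ => ?_
  rw [← Finset.sum_mul]
  congr 1
  rw [Matrix.mul_apply]
  refine Finset.sum_congr rfl fun l _ => ?_
  rw [Matrix.mul_diagonal, Matrix.star_apply, RCLike.star_def]

lemma sum_wt_one (U : Matrix (Fin (n + 1)) (Fin (n + 1)) ℂ) (hU : U * star U = 1) (x : Circ) :
    ∑ l, wt n U l x = 1 := by
  have h := sum_wt n U (fun _ => 1) x
  have h1 : U * diagonal (fun _ => (1 : ℂ)) * star U = 1 := by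
    rw [Matrix.diagonal_one, mul_one, hU]
  rw [h1] at h
  have h2 : ∑ j : Fin (n + 1), ∑ k : Fin (n + 1),
      (1 : Matrix (Fin (n + 1)) (Fin (n + 1)) ℂ) j k * fourier ((j : ℤ) - (k : ℤ)) x = n + 1 := by
    have h3 : ∀ j : Fin (n + 1), ∑ k : Fin (n + 1),
      (1 : Matrix (Fin (n + 1)) (Fin (n + 1)) ℂ) j k * fourier ((j : ℤ) - (k : ℤ)) x = 1 := by
      intro j
      rw [Finset.sum_eq_single j]
      · rw [Matrix.one_apply_eq, sub_self, one_mul]; exact fourier_zero
      · intro k _ hk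
        rw [Matrix.one_apply_ne (Ne.symm hk), zero_mul]
      · intro h; exact absurd (Finset.mem_univ _) h
    rw [Finset.sum_congr rfl fun j _ => h3 j]
    simp
  rw [h2] at h
  have hn : ((n : ℂ) + 1) ≠ 0 := Nat.cast_add_one_ne_zero n
  have h4 : (∑ l, 1 * ((wt n U l x : ℝ) : ℂ)) = 1 := by
    apply mul_right_cancel₀ hn
    rw [h, one_mul]
  simp only [one_mul] at h4
  exact_mod_cast h4

/-- `K_n F` as a convex combination. -/
lemma conv_fejer_eq_sum_wt {F : Circ → ℂ} (hF : Integrable F mC)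
    (U : Matrix (Fin (n + 1)) (Fin (n + 1)) ℂ) (a : Fin (n + 1) → ℂ)
    (hU : toep n F = U * diagonal a * star U) (x : Circ) :
    conv (fejerKernel n) F x = ∑ l, a l * ((wt n U l x : ℝ) : ℂ) := by
  have hn : ((n : ℂ) + 1) ≠ 0 := Nat.cast_add_one_ne_zero n
  apply mul_right_cancel₀ hn
  rw [sum_wt, ← hU, conv_fejer n hF]
  have h1 : ∑ j : Fin (n + 1), ∑ k : Fin (n + 1),
      toep n F j k * fourier ((j : ℤ) - (k : ℤ)) x =
      ∑ j ∈ Finset.range (n + 1), ∑ k ∈ Finset.range (n + 1),
        (fun m : ℤ => fourierCoeff F m * fourier m x) ((j : ℤ) - (k : ℤ)) := by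
    rw [Finset.sum_range]
    refine Finset.sum_congr rfl fun j _ => ?_
    rw [Finset.sum_range]
    rfl
  rw [h1, sum_toeplitz n (fun m : ℤ => fourierCoeff F m * fourier m x), Finset.sum_mul]
  refine Finset.sum_congr rfl fun m _ => ?_
  have habs : ((|(m : ℝ)| : ℝ) : ℂ) = ((|m| : ℤ) : ℂ) := by
    rw [← Int.cast_abs, Complex.ofReal_intCast]
  push_cast
  rw [habs]
  field_simp

/-- Mean value of `F` against the weights. -/
lemma integral_mul_wt {F : Circ → ℂ} (hF : Integrable F mC)
    (U : Matrix (Fin (n + 1)) (Fin (n + 1)) ℂ) (a : Fin (n + 1) → ℂ)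
    (hU' : star U * U = 1) (hU : toep n F = U * diagonal a * star U) (l : Fin (n + 1)) :
    (∫ x, F x * ((wt n U l x : ℝ) : ℂ) ∂mC) * (n + 1) = a l := by
  have h1 : ∀ x, F x * ((wt n U l x : ℝ) : ℂ) * (n + 1) =
      ∑ j : Fin (n + 1), ∑ k : Fin (n + 1),
        (U j l * conj (U k l)) * (fourier (-((k : ℤ) - (j : ℤ))) x • F x) := by
    intro x
    rw [mul_assoc, wt_expand, Finset.mul_sum]
    refine Finset.sum_congr rfl fun j _ => ?_
    rw [Finset.mul_sum]
    refine Finset.sum_congr rfl fun k _ => ?_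
    rw [smul_eq_mul, neg_sub]
    ring
  rw [← integral_mul_const]
  simp_rw [h1]
  rw [integral_finsetSum]
  swap
  · intro j _
    exact integrable_finsetSum _ fun k _ => (hF.fourier_smul _).const_mul _
  have h2 : ∀ j : Fin (n + 1), ∫ x, ∑ k : Fin (n + 1),
      (U j l * conj (U k l)) * (fourier (-((k : ℤ) - (j : ℤ))) x • F x) ∂mC =
      ∑ k : Fin (n + 1), (U j l * conj (U k l)) * toep n F k j := by
    intro j
    rw [integral_finsetSum]
    · refine Finset.sum_congr rfl fun k _ => ?_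
      rw [integral_const_mul]
      rfl
    · exact fun k _ => (hF.fourier_smul _).const_mul _
  rw [Finset.sum_congr rfl fun j _ => h2 j]
  have h3 : (star U * toep n F * U) l l = a l := by
    rw [hU]
    have : star U * (U * diagonal a * star U) * U = diagonal a := by
      calc star U * (U * diagonal a * star U) * U
          = (star U * U) * diagonal a * (star U * U) := by simp only [mul_assoc]
        _ = diagonal a := by rw [hU', one_mul, mul_one]
    rw [this, Matrix.diagonal_apply_eq]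
  rw [← h3, Matrix.mul_apply]
  refine Finset.sum_congr rfl fun j _ => ?_
  rw [Matrix.mul_apply, Finset.sum_mul]
  refine Finset.sum_congr rfl fun k _ => ?_
  rw [Matrix.star_apply, RCLike.star_def]
  ring

lemma integral_wt (U : Matrix (Fin (n + 1)) (Fin (n + 1)) ℂ)
    (hU' : star U * U = 1) (l : Fin (n + 1)) :
    (∫ x, ((wt n U l x : ℝ) : ℂ) ∂mC) * (n + 1) = 1 := by
  have hU : U * star U = 1 := by
    exact mul_eq_one_comm.1 hU'
  have hone : toep n (fun _ => (1 : ℂ)) = U * diagonal (fun _ => (1 : ℂ)) * star U := by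
    rw [Matrix.diagonal_one, mul_one, hU]
    ext j k
    unfold toep fourierCoeff
    simp only [smul_eq_mul, mul_one]
    by_cases h : j = k
    · subst h
      rw [Matrix.one_apply_eq]
      simp
    · rw [Matrix.one_apply_ne h]
      have hne : -((j : ℤ) - (k : ℤ)) ≠ 0 := by
        intro h0
        apply h
        ext
        omega
      exact integral_eq_zero_of_add_right_eq_neg (μ := haarAddCircle)
        (fourier_add_half_inv_index hne Real.two_pi_pos)
  have := integral_mul_wt n (F := fun _ => (1 : ℂ)) (integrable_const _) U (fun _ => 1) hU' hone l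
  simpa using this

/-- Summary: for real `f` the Fejer mean is a convex combination of numbers `a l` with weights
`w l`, such that `f - a l` has mean zero against `w l`. -/
lemma exists_weights {f : Circ → ℝ} (hf : Integrable f mC) :
    ∃ (a : Fin (n + 1) → ℝ) (w : Fin (n + 1) → Circ → ℝ),
      (∀ l, Continuous (w l)) ∧ (∀ l x, 0 ≤ w l x) ∧ (∀ x, ∑ l, w l x = 1) ∧
      (∀ x, conv (fejerKernel n) (fun y => (f y : ℂ)) x = ((∑ l, w l x * a l : ℝ) : ℂ)) ∧
      (∀ l, ∫ x, (f x - a l) * w l x ∂mC = 0) := by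
  obtain ⟨U, a, h1, h2, h3⟩ := exists_diag _ (toep_isHermitian n f)
  have hF : Integrable (fun x => (f x : ℂ)) mC := hf.ofReal
  refine ⟨a, wt n U, continuous_wt n U, wt_nonneg n U, sum_wt_one n U h1, ?_, ?_⟩
  · intro x
    rw [conv_fejer_eq_sum_wt n hF U _ h3]
    push_cast
    refine Finset.sum_congr rfl fun l _ => ?_
    ring
  · intro l
    have e1 := integral_mul_wt n hF U _ h2 h3 l
    have e2 := integral_wt n U h2 l
    have hn : ((n : ℂ) + 1) ≠ 0 := Nat.cast_add_one_ne_zero n
    have hw : Integrable (fun x => wt n U l x) mC :=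
      (continuous_wt n U l).integrable_of_hasCompactSupport
        (HasCompactSupport.of_compactSpace _)
    obtain ⟨B, hB⟩ : ∃ B, ∀ x, ‖wt n U l x‖ ≤ B := by
      obtain ⟨B, hB⟩ := (isCompact_range (continuous_wt n U l)).isBounded.exists_norm_le
      exact ⟨B, fun x => hB _ ⟨x, rfl⟩⟩
    have hfw : Integrable (fun x => f x * wt n U l x) mC := by
      exact hf.mul_bdd (c := B) (continuous_wt n U l).aestronglyMeasurable
        (Filter.Eventually.of_forall hB)
    have e3 : ∫ x, (f x - a l) * wt n U l x ∂mC =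
        ∫ x, f x * wt n U l x ∂mC - a l * ∫ x, wt n U l x ∂mC := by
      rw [← integral_const_mul, ← integral_sub hfw (hw.const_mul _)]
      congr 1; ext x; ring
    have e4 : (((∫ x, (f x - a l) * wt n U l x ∂mC : ℝ)) : ℂ) * (n + 1) = 0 := by
      rw [e3]
      push_cast
      rw [sub_mul, mul_assoc, ← integral_complex_ofReal, ← integral_complex_ofReal, e2]
      have : ∫ x, ((f x * wt n U l x : ℝ) : ℂ) ∂mC = ∫ x, (f x : ℂ) * ((wt n U l x : ℝ) : ℂ) ∂mC := by
        congr 1; ext x; push_cast; ring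
      rw [this, e1]
      ring
    rcases mul_eq_zero.1 e4 with h | h
    · exact_mod_cast h
    · exact absurd h hn

end Pool.Agent.W_MP_c466d4_an
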